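import Pool.Agent.K7.H38.MD.Interp

set_option autoImplicit false

open Complex Filter Topology Metric Set
open scoped ContDiff
open Pool.Agent.Helper797.Bs

namespace Pool.Agent.K7.H38.MD

lemma a_ne : (a : ℂ) ≠ 0 := by exact_mod_cast a_pos.ne'

lemma node_w {k : ℕ} (hk : 1 ≤ k) :
    ((k : ℂ) * Real.pi) ^ 2 = (node k : ℂ) ^ 2 + (a : ℂ) ^ 2 := by
  rw [← Complex.ofReal_pow, node_sq hk]
  push_cast
  ring

lemma cos_kpi (k : ℕ) : Complex.cos ((k : ℂ) * Real.pi) = (-1) ^ k := by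
  have h := Real.cos_nat_mul_pi k
  have h2 : ((Real.cos (k * Real.pi) : ℝ) : ℂ) = (((-1) ^ k : ℝ) : ℂ) := by rw [h]
  push_cast at h2
  exact h2

lemma cw_node {k : ℕ} (hk : 1 ≤ k) : cw ((node k : ℂ) ^ 2) = (-1) ^ k := by
  rw [cw_eq (node_w hk), cos_kpi]

lemma kpi_ne {k : ℕ} (hk : 1 ≤ k) : (k : ℂ) * Real.pi ≠ 0 := by
  have h1 : (k : ℂ) ≠ 0 := by
    have : k ≠ 0 := by omega
    exact_mod_cast this
  have h2 : (Real.pi : ℂ) ≠ 0 := by exact_mod_cast Real.pi_ne_zero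
  exact mul_ne_zero h1 h2

lemma sin_kpi (k : ℕ) : Complex.sin ((k : ℂ) * Real.pi) = 0 := Complex.sin_nat_mul_pi k

lemma sw_node {k : ℕ} (hk : 1 ≤ k) : sw ((node k : ℂ) ^ 2) = 0 := by
  rw [sw_eq (node_w hk), snc_ne (kpi_ne hk), sin_kpi, zero_div]

lemma sw_zero : sw 0 = 1 / (a : ℂ) := by
  rw [sw_eq (s := (a : ℂ)) (by ring), snc_ne a_ne, sin_a]

lemma sw_deriv {w b : ℂ} (hb : b ≠ 0) (h : b ^ 2 = w + (a : ℂ) ^ 2) :
    HasDerivAt sw ((Complex.cos b * b - Complex.sin b) / b ^ 2 / (2 * b)) w := by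
  have h1 := ev_deriv snc_diff snc_neg hb (snc_deriv hb)
  have h2 : HasDerivAt (ev snc) (deriv (ev snc) (b ^ 2)) (w + (a : ℂ) ^ 2) := by
    rw [← h]; exact (evsnc_diff _).hasDerivAt
  rw [h1] at h2
  exact h2.comp_add_const w _

lemma cw_deriv_zero : deriv cw 0 = -(1 / (2 * (a : ℂ))) := by
  have h := H_zero
  unfold H at h
  rw [dslope_same] at h
  exact h

lemma sw_deriv_zero : deriv sw 0 = -(1 / (2 * (a : ℂ) ^ 3)) := by
  have h := (sw_deriv (w := 0) (b := (a : ℂ)) a_ne (by ring)).deriv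
  rw [h, cos_a, sin_a]
  have := a_ne
  field_simp
  ring

lemma kap_a : ((4 / Real.pi ^ 2 : ℝ) : ℂ) = 1 / (a : ℂ) ^ 2 := by
  unfold a
  have hpi : (Real.pi : ℂ) ≠ 0 := by exact_mod_cast Real.pi_ne_zero
  push_cast
  field_simp
  norm_num

lemma two_pi_a : ((2 / Real.pi : ℝ) : ℂ) = 1 / (a : ℂ) := by
  unfold a
  have hpi : (Real.pi : ℂ) ≠ 0 := by exact_mod_cast Real.pi_ne_zero
  push_cast
  field_simp

lemma V_cw : V cw = -((2 / Real.pi : ℝ) : ℂ) := by
  unfold V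
  rw [cw_deriv_zero, cw_zero, two_pi_a]
  have := a_ne
  field_simp
  ring

lemma V_sw : V sw = 0 := by
  unfold V
  rw [sw_deriv_zero, sw_zero, kap_a]
  have := a_ne
  field_simp
  ring

lemma V_add {G P : ℂ → ℂ} (hG : Differentiable ℂ G) (hP : Differentiable ℂ P) (c : ℂ) :
    V (fun w => G w + c * P w) = V G + c * V P := by
  unfold V
  have h := ((hG 0).hasDerivAt.add ((hP 0).hasDerivAt.const_mul c)).deriv
  have e : (G + fun y => c * P y) = fun w => G w + c * P w := rfl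
  rw [e] at h
  rw [h]
  ring

/-- 1-D growth -/
lemma sw_growth1 : ∃ K : ℝ, 0 ≤ K ∧ ∀ z : ℂ, ‖sw (z ^ 2)‖ ≤ K * Real.exp |z.im| := by
  obtain ⟨K, hK, h⟩ := sw_growth
  refine ⟨K, hK, fun z => ?_⟩
  have := h z 0
  simp only [ne_eq, OfNat.ofNat_ne_zero, not_false_eq_true, zero_pow, add_zero, Complex.zero_im] at this
  rw [Real.sqrt_sq_eq_abs] at this
  exact this

lemma cw_growth1 (z : ℂ) : ‖cw (z ^ 2)‖ ≤ Real.exp |z.im| := by
  have := cw_growth z 0
  simp only [ne_eq, OfNat.ofNat_ne_zero, not_false_eq_true, zero_pow, add_zero, Complex.zero_im] at this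
  rw [Real.sqrt_sq_eq_abs] at this
  exact this

/-- division by `w - τ` -/
noncomputable def Pj (τ : ℂ) : ℂ → ℂ := dslope sw τ

lemma Pj_diff (τ : ℂ) : Differentiable ℂ (Pj τ) := by
  have h : DifferentiableOn ℂ (Pj τ) univ :=
    (Complex.differentiableOn_dslope (by simp)).2 sw_diff.differentiableOn
  exact fun z => (h z (mem_univ z)).differentiableAt (by simp)

lemma Pj_ne {τ w : ℂ} (hτ : sw τ = 0) (h : w ≠ τ) : Pj τ w = sw w / (w - τ) := by
  unfold Pj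
  rw [dslope_of_ne _ h, slope_def_field, hτ, sub_zero]

lemma Pj_growth {τ : ℂ} (hτ : sw τ = 0) : ∃ K : ℝ, 0 ≤ K ∧
    ∀ z : ℂ, ‖Pj τ (z ^ 2)‖ ≤ K * Real.exp |z.im| := by
  obtain ⟨K, hK, hb⟩ := sw_growth1
  obtain ⟨C, hC⟩ := (isCompact_closedBall τ 1).exists_bound_of_continuousOn
    (Pj_diff τ).continuous.continuousOn
  refine ⟨max C K, le_max_of_le_right hK, fun z => ?_⟩
  have he : 1 ≤ Real.exp |z.im| := Real.one_le_exp (abs_nonneg _)
  rcases le_total ‖z ^ 2 - τ‖ 1 with h | h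
  · have h1 := hC (z ^ 2) (by simpa [dist_eq_norm] using h)
    have h2 : C ≤ max C K := le_max_left _ _
    have h3 : (0:ℝ) ≤ max C K := le_max_of_le_right hK
    nlinarith
  · have hne : z ^ 2 ≠ τ := by
      intro h0; rw [h0, sub_self, norm_zero] at h; linarith
    rw [Pj_ne hτ hne, norm_div]
    have h2 : ‖sw (z ^ 2)‖ / ‖z ^ 2 - τ‖ ≤ ‖sw (z ^ 2)‖ := div_le_self (norm_nonneg _) h
    refine (h2.trans (hb z)).trans ?_
    gcongr
    exact le_max_right _ _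

lemma V_Pj {τ : ℂ} (hτ : sw τ = 0) (h0 : τ ≠ 0) : V (Pj τ) = -(2 / ((a : ℂ) * τ ^ 2)) := by
  have h1 : HasDerivAt (fun w : ℂ => sw w / (w - τ))
      ((deriv sw 0 * (0 - τ) - sw 0 * 1) / (0 - τ) ^ 2) 0 := by
    have h2 : HasDerivAt (fun w : ℂ => w - τ) 1 0 := (hasDerivAt_id' (0 : ℂ)).sub_const τ
    exact (sw_diff 0).hasDerivAt.div h2 (by simpa using h0)
  have h2 : Pj τ =ᶠ[𝓝 0] fun w : ℂ => sw w / (w - τ) := by
    have : {τ}ᶜ ∈ 𝓝 (0 : ℂ) := isOpen_compl_singleton.mem_nhds (by simpa using h0.symm)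
    filter_upwards [this] with w hw
    exact Pj_ne hτ hw
  have h3 := h2.deriv_eq
  rw [h1.deriv] at h3
  unfold V
  rw [h3, Pj_ne hτ h0.symm, sw_deriv_zero, sw_zero, kap_a]
  have := a_ne
  field_simp
  ring

lemma eq_one_of {z : ℂ} (h1 : ‖z‖ ≤ 1) (h2 : 1 ≤ z.re) : z = 1 := by
  have h3 : z.re * z.re + z.im * z.im ≤ 1 := by
    have := Complex.normSq_apply z
    rw [Complex.normSq_eq_norm_sq] at this
    nlinarith [norm_nonneg z]
  apply Complex.ext
  · rw [Complex.one_re]; nlinarith [mul_self_nonneg z.im]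
  · rw [Complex.one_im]
    have : z.im * z.im ≤ 0 := by nlinarith
    exact mul_self_eq_zero.1 (le_antisymm this (mul_self_nonneg _))

lemma node_inj {j k : ℕ} (hj : 1 ≤ j) (hk : 1 ≤ k) (h : (node k : ℂ) ^ 2 = (node j : ℂ) ^ 2) :
    k = j := by
  have h1 : (node k) ^ 2 = (node j) ^ 2 := by exact_mod_cast h
  rw [node_sq hk, node_sq hj] at h1
  have h2 : ((k : ℝ) * Real.pi) ^ 2 = ((j : ℝ) * Real.pi) ^ 2 := by linarith
  have h3 : (k : ℝ) * Real.pi = (j : ℝ) * Real.pi := by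
    have := Real.pi_pos
    exact (sq_eq_sq₀ (by positivity) (by positivity)).1 h2
  have h4 : (k : ℝ) = j := mul_right_cancel₀ Real.pi_ne_zero h3
  exact_mod_cast h4

/-- equality case, even functions -/
theorem values_of_V {G : ℂ → ℂ} (hGd : Differentiable ℂ G) {C : ℝ} (hC : 0 ≤ C)
    (hb : ∀ z, ‖G (z ^ 2)‖ ≤ C * Real.exp |z.im|)
    (hk : ∀ k : ℕ, 1 ≤ k → ‖G ((node k : ℂ) ^ 2)‖ ≤ 1) (hV : V G = ((2 / Real.pi : ℝ) : ℂ))
    {j : ℕ} (hj : 1 ≤ j) : G ((node j : ℂ) ^ 2) = (-1) ^ (j + 1) := by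
  set τ : ℂ := (node j : ℂ) ^ 2 with hτdef
  have hτ0 : τ ≠ 0 := by
    have : (node j : ℂ) ≠ 0 := by exact_mod_cast (node_pos hj).ne'
    exact pow_ne_zero 2 this
  have hτ : sw τ = 0 := sw_node hj
  set e : ℂ := (-1) ^ (j + 1) with he
  have hee : e * e = 1 := by
    rw [he, ← mul_pow]; norm_num
  have hne : ‖e‖ = 1 := by rw [he, norm_pow, norm_neg, norm_one, one_pow]
  have hj0 : ((j : ℂ) * Real.pi) ≠ 0 := kpi_ne hj
  have hjc : (j : ℂ) ≠ 0 := left_ne_zero_of_mul hj0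
  have hpc : (Real.pi : ℂ) ≠ 0 := right_ne_zero_of_mul hj0
  have hd : Pj τ τ = -e / (2 * ((j : ℂ) * Real.pi) ^ 2) := by
    unfold Pj
    rw [dslope_same, (sw_deriv hj0 (node_w hj)).deriv, sin_kpi]
    have : Complex.cos ((j : ℂ) * Real.pi) = -e := by
      rw [cos_kpi, he, pow_succ]; ring
    rw [this]
    field_simp
    ring
  set η := G τ with hη
  -- the modified function
  set c : ℂ := -(e - η) * e * (2 * ((j : ℂ) * Real.pi) ^ 2) with hc
  have hPd := Pj_diff τ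
  obtain ⟨K, hK, hPb⟩ := Pj_growth hτ
  have hcd : c * Pj τ τ = e - η := by
    rw [hc, hd]
    have h1 : -(e - η) * e * (2 * ((j : ℂ) * Real.pi) ^ 2) * (-e / (2 * ((j : ℂ) * Real.pi) ^ 2))
      = (e - η) * (e * e) := by field_simp
    rw [h1, hee, mul_one]
  have key := V_le (G := fun w => G w + c * Pj τ w) (hGd.add (hPd.const_mul c))
    (C := C + ‖c‖ * K) (M := 1) (by positivity) ?_ zero_le_one ?_
  · rw [V_add hGd hPd, hV, V_Pj hτ hτ0, mul_one] at key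
    have hval : ((2 / Real.pi : ℝ) : ℂ) + c * -(2 / ((a : ℂ) * τ ^ 2))
        = ((2 / Real.pi : ℝ) : ℂ) + (1 - e * η) * ((4 * (j * Real.pi) ^ 2 / (a * (node j ^ 2) ^ 2) : ℝ) : ℂ) := by
      have h1 : c = -(1 - e * η) * (2 * ((j : ℂ) * Real.pi) ^ 2) := by
        rw [hc]; linear_combination (-(2 * ((j : ℂ) * Real.pi) ^ 2)) * hee
      rw [h1, hτdef]
      push_cast
      have := a_ne
      field_simp
      ring
    rw [hval] at key
    have h2 := (Complex.re_le_norm _).trans key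
    rw [Complex.add_re, Complex.ofReal_re, Complex.re_mul_ofReal, Complex.sub_re, Complex.one_re] at h2
    have hjpos : (0:ℝ) < j := by exact_mod_cast hj
    have h3 : 0 < 4 * (j * Real.pi) ^ 2 / (a * (node j ^ 2) ^ 2) := by
      have := node_pos hj
      have := a_pos
      have := Real.pi_pos
      positivity
    have h4 : 1 ≤ (e * η).re := by
      by_contra hcon
      rw [not_le] at hcon
      have : 0 < (1 - (e * η).re) * (4 * (j * Real.pi) ^ 2 / (a * (node j ^ 2) ^ 2)) :=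
        mul_pos (by linarith) h3
      linarith
    have h5 : ‖e * η‖ ≤ 1 := by
      rw [norm_mul, hne, one_mul]; exact hk j hj
    have h6 := eq_one_of h5 h4
    calc η = (e * e) * η := by rw [hee, one_mul]
      _ = e * (e * η) := by ring
      _ = e := by rw [h6, mul_one]
  · intro z
    refine (norm_add_le _ _).trans ?_
    rw [norm_mul, add_mul]
    have := hb z
    have h2 := hPb z
    have h3 : ‖c‖ * ‖Pj τ (z ^ 2)‖ ≤ ‖c‖ * (K * Real.exp |z.im|) := by gcongr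
    linarith
  · intro k hk1
    by_cases hkj : k = j
    · subst hkj
      change ‖G τ + c * Pj τ τ‖ ≤ 1
      rw [hcd]
      have : G τ + (e - η) = e := by rw [← hη]; ring
      rw [this, hne]
    · have h1 : (node k : ℂ) ^ 2 ≠ τ := fun h => hkj (node_inj hj hk1 h)
      have h2 : Pj τ ((node k : ℂ) ^ 2) = 0 := by
        rw [Pj_ne hτ h1, sw_node hk1, zero_div]
      change ‖G ((node k : ℂ) ^ 2) + c * Pj τ ((node k : ℂ) ^ 2)‖ ≤ 1
      rw [h2, mul_zero, add_zero]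
      exact hk k hk1

end Pool.Agent.K7.H38.MD
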