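import Pool.Agent.K7.H38.MD.Extr1

set_option autoImplicit false

open Complex Filter Topology Metric Set
open scoped ContDiff
open Pool.Agent.Helper797.Bs

namespace Pool.Agent.K7.H38.MD

/-- the even part -/
noncomputable def evn (F : ℂ → ℂ) (z : ℂ) : ℂ := (F z + F (-z)) / 2

lemma evn_diff {F : ℂ → ℂ} (hF : Differentiable ℂ F) : Differentiable ℂ (evn F) :=
  (hF.add (hF.comp differentiable_neg)).div_const 2

lemma evn_neg (F : ℂ → ℂ) (s : ℂ) : evn F (-s) = evn F s := by
  unfold evn; rw [neg_neg]; ring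

lemma evn_bound {F : ℂ → ℂ} {M : ℝ} (hb : ∀ z, ‖F z‖ ≤ M * Real.exp |z.im|) (z : ℂ) :
    ‖evn F z‖ ≤ M * Real.exp |z.im| := by
  unfold evn
  rw [norm_div]
  have h1 := norm_add_le (F z) (F (-z))
  have h2 := hb z
  have h3 := hb (-z)
  rw [Complex.neg_im, abs_neg] at h3
  have h4 : ‖(2:ℂ)‖ = 2 := by simp
  rw [h4, div_le_iff₀ (by norm_num)]
  linarith

lemma U_evn {F : ℂ → ℂ} (hF : Differentiable ℂ F) : U (evn F) = U F := by
  have hE0 : evn F 0 = F 0 := by unfold evn; rw [neg_zero]; ring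
  have hE2 : deriv (deriv (evn F)) 0 = deriv (deriv F) 0 := by
    have h1 : deriv (evn F) = fun z => (deriv F z - deriv F (-z)) / 2 := by
      ext z
      have d1 : HasDerivAt F (deriv F z) z := (hF z).hasDerivAt
      have d2 : HasDerivAt (fun z => F (-z)) (-deriv F (-z)) z := by
        have d3 : HasDerivAt F (deriv F (-z)) (-z) := (hF (-z)).hasDerivAt
        have h := HasDerivAt.comp z d3 (hasDerivAt_neg z)
        rw [mul_neg_one] at h
        exact h
      have := (d1.add d2).div_const 2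
      have e := this.deriv
      have e2 : (fun z => (F + fun z => F (-z)) z / 2) = evn F := by ext z; rfl
      rw [e2] at e
      rw [e]; ring
    rw [h1]
    have hF' : Differentiable ℂ (deriv F) := hF.deriv
    have d1 : HasDerivAt (deriv F) (deriv (deriv F) 0) 0 := (hF' 0).hasDerivAt
    have d2 : HasDerivAt (fun z => deriv F (-z)) (-deriv (deriv F) 0) 0 := by
      have d3 : HasDerivAt (deriv F) (deriv (deriv F) 0) (-0) := by rw [neg_zero]; exact d1
      have h := HasDerivAt.comp (0:ℂ) d3 (hasDerivAt_neg 0)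
      rw [mul_neg_one] at h
      exact h
    have := (d1.sub d2).div_const 2
    have e := this.deriv
    have e2 : (fun z => (deriv F - fun z => deriv F (-z)) z / 2)
        = fun z => (deriv F z - deriv F (-z)) / 2 := by ext z; rfl
    rw [e2] at e
    rw [e]; ring
  unfold U
  rw [hE0, hE2]

lemma ev_sq {f : ℂ → ℂ} (hev : ∀ s, f (-s) = f s) (z : ℂ) : ev f (z ^ 2) = f z := ev_eq hev rfl

lemma U_eq_V {F : ℂ → ℂ} (hF : Differentiable ℂ F) : U F = V (ev (evn F)) := by
  rw [← U_sq (ev_differentiable (evn_diff hF) (evn_neg F)), ← U_evn hF]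
  congr 1
  funext z
  exact (ev_sq (evn_neg F) z).symm

lemma two_eq {x y e : ℂ} (hx : ‖x‖ ≤ 1) (hy : ‖y‖ ≤ 1) (hee : e * e = 1) (hne : ‖e‖ = 1)
    (h : (x + y) / 2 = e) : x = e ∧ y = e := by
  have h1 : e * x + e * y = 2 := by
    linear_combination (2 * e) * h + 2 * hee
  have h2 : (e * x).re + (e * y).re = 2 := by
    have := congrArg Complex.re h1
    simpa using this
  have hx1 : ‖e * x‖ ≤ 1 := by rw [norm_mul, hne, one_mul]; exact hx
  have hy1 : ‖e * y‖ ≤ 1 := by rw [norm_mul, hne, one_mul]; exact hy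
  have hx2 := (Complex.re_le_norm _).trans hx1
  have hy2 := (Complex.re_le_norm _).trans hy1
  have hx3 := eq_one_of hx1 (by linarith)
  have hy3 := eq_one_of hy1 (by linarith)
  constructor
  · linear_combination (-x) * hee + e * hx3
  · linear_combination (-y) * hee + e * hy3

lemma sgn_facts (k : ℕ) : ((-1 : ℂ) ^ (k + 1)) * ((-1 : ℂ) ^ (k + 1)) = 1 ∧
    ‖((-1 : ℂ) ^ (k + 1))‖ = 1 := by
  constructor
  · rw [← mul_pow]; norm_num
  · rw [norm_pow, norm_neg, norm_one, one_pow]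

/-- (i) ⇒ (ii) -/
theorem values_of_U {F : ℂ → ℂ} (hF : Differentiable ℂ F)
    (hb : ∀ z, ‖F z‖ ≤ Real.exp |z.im|) (hU : U F = ((2 / Real.pi : ℝ) : ℂ))
    {k : ℕ} (hk : 1 ≤ k) : F (node k) = (-1) ^ (k + 1) ∧ F (-(node k)) = (-1) ^ (k + 1) := by
  have hb' : ∀ z, ‖F z‖ ≤ 1 * Real.exp |z.im| := fun z => by rw [one_mul]; exact hb z
  have hr : ∀ x : ℝ, ‖F x‖ ≤ 1 := fun x => by
    have := hb x
    rwa [Complex.ofReal_im, abs_zero, Real.exp_zero] at this
  have h := values_of_V (G := ev (evn F)) (ev_differentiable (evn_diff hF) (evn_neg F))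
    (C := 1) zero_le_one (fun z => by rw [ev_sq (evn_neg F)]; exact evn_bound hb' z)
    (fun k hk => by
      rw [ev_sq (evn_neg F)]
      have := evn_bound hb' (node k)
      rwa [Complex.ofReal_im, abs_zero, Real.exp_zero, mul_one] at this)
    (by rw [← U_eq_V hF, hU]) hk
  rw [ev_sq (evn_neg F)] at h
  unfold evn at h
  obtain ⟨s1, s2⟩ := sgn_facts k
  refine two_eq (hr _) ?_ s1 s2 h
  have := hr (-(node k))
  rwa [Complex.ofReal_neg] at this

/-- (ii) ⇒ (iii), first step -/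
theorem form_of_zeros {D : ℂ → ℂ} (hD : Differentiable ℂ D) {C : ℝ} (hC : 0 ≤ C)
    (hb : ∀ z, ‖D z‖ ≤ C * Real.exp |z.im|)
    (h1 : ∀ k : ℕ, 1 ≤ k → D (node k) = 0) (h2 : ∀ k : ℕ, 1 ≤ k → D (-(node k)) = 0) :
    ∃ A A1 : ℂ, ∀ z, D z = (A + A1 * z) * sw (z ^ 2) := by
  -- even part
  have hE := eq_sw (G := ev (evn D)) (ev_differentiable (evn_diff hD) (evn_neg D)) hC
    (fun z => by rw [ev_sq (evn_neg D)]; exact evn_bound hb z)
    (fun k hk => by
      rw [ev_sq (evn_neg D)]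
      unfold evn
      rw [h1 k hk, h2 k hk]; norm_num)
  obtain ⟨A, hA⟩ := hE
  -- odd part
  set O : ℂ → ℂ := fun z => (D z - D (-z)) / 2 with hO
  have hOd : Differentiable ℂ O := (hD.sub (hD.comp differentiable_neg)).div_const 2
  have hO0 : O 0 = 0 := by simp [hO]
  set P : ℂ → ℂ := dslope O 0 with hP
  have hPd : Differentiable ℂ P := by
    have h : DifferentiableOn ℂ P univ :=
      (Complex.differentiableOn_dslope (by simp)).2 hOd.differentiableOn
    exact fun z => (h z (mem_univ z)).differentiableAt (by simp)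
  have hPne : ∀ z, z ≠ 0 → P z = O z / z := fun z hz => by
    rw [hP, dslope_of_ne _ hz, slope_def_field, hO0, sub_zero, sub_zero]
  have hPev : ∀ s, P (-s) = P s := by
    intro s
    rcases eq_or_ne s 0 with rfl | hs
    · rw [neg_zero]
    · rw [hPne s hs, hPne (-s) (neg_ne_zero.2 hs)]
      simp only [hO, neg_neg]
      field_simp
      ring
  have hOb : ∀ z, ‖O z‖ ≤ C * Real.exp |z.im| := by
    intro z
    simp only [hO]
    rw [norm_div]
    have h1 := norm_sub_le (D z) (D (-z))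
    have h2 := hb z
    have h3 := hb (-z)
    rw [Complex.neg_im, abs_neg] at h3
    have h4 : ‖(2:ℂ)‖ = 2 := by simp
    rw [h4, div_le_iff₀ (by norm_num)]
    linarith
  obtain ⟨C1, hC1⟩ := (isCompact_closedBall (0 : ℂ) 1).exists_bound_of_continuousOn
    hPd.continuous.continuousOn
  have hPb : ∀ z, ‖P z‖ ≤ max C1 C * Real.exp |z.im| := by
    intro z
    have he : 1 ≤ Real.exp |z.im| := Real.one_le_exp (abs_nonneg _)
    rcases le_total ‖z‖ 1 with h | h
    · have h1 := hC1 z (by simpa using h)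
      have h2 : C1 ≤ max C1 C := le_max_left _ _
      have h3 : (0:ℝ) ≤ max C1 C := le_max_of_le_right hC
      nlinarith
    · have hne : z ≠ 0 := by
        intro h0; rw [h0, norm_zero] at h; linarith
      rw [hPne z hne, norm_div]
      have h2 : ‖O z‖ / ‖z‖ ≤ ‖O z‖ := div_le_self (norm_nonneg _) h
      refine (h2.trans (hOb z)).trans ?_
      gcongr
      exact le_max_right _ _
  have hQ := eq_sw (G := ev P) (ev_differentiable hPd hPev) (C := max C1 C)
    (le_max_of_le_right hC)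
    (fun z => by rw [ev_sq hPev]; exact hPb z)
    (fun k hk => by
      rw [ev_sq hPev, hPne _ (by exact_mod_cast (node_pos hk).ne')]
      simp only [hO]
      rw [h1 k hk, h2 k hk]; norm_num)
  obtain ⟨A1, hA1⟩ := hQ
  refine ⟨A, A1, fun z => ?_⟩
  have e1 := hA (z ^ 2)
  rw [ev_sq (evn_neg D)] at e1
  have e2 := hA1 (z ^ 2)
  rw [ev_sq hPev] at e2
  have e3 : D z = evn D z + O z := by simp only [evn, hO]; ring
  have e4 : O z = z * P z := by
    rcases eq_or_ne z 0 with rfl | hz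
    · rw [hO0, zero_mul]
    · rw [hPne z hz]; field_simp
  rw [e3, e4, e1, e2]
  ring

/-- real values -/
lemma cw_re (x : ℝ) : cw ((x : ℂ) ^ 2) = ((Real.cos √(x ^ 2 + a ^ 2) : ℝ) : ℂ) := by
  have h := cw_real (sq_nonneg x)
  rw [← h]; push_cast; rfl

lemma wpos (x : ℝ) : 0 < √(x ^ 2 + a ^ 2) := by
  have := a_pos
  apply Real.sqrt_pos.2; positivity

lemma sw_re (x : ℝ) : sw ((x : ℂ) ^ 2)
    = ((Real.sin √(x ^ 2 + a ^ 2) / √(x ^ 2 + a ^ 2) : ℝ) : ℂ) := by
  have h0 := wpos x
  have hc : ((√(x ^ 2 + a ^ 2) : ℝ) : ℂ) ≠ 0 := by exact_mod_cast h0.ne'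
  rw [sw_eq (s := ((√(x ^ 2 + a ^ 2) : ℝ) : ℂ)), snc_ne hc]
  · push_cast; rfl
  · rw [← Complex.ofReal_pow, Real.sq_sqrt (by positivity)]
    push_cast
    ring

/-- derivative of `x ↦ Φ(x²)` on the real line -/
lemma sq_comp_hasDeriv {G : ℂ → ℂ} (hG : Differentiable ℂ G) (x : ℝ) :
    HasDerivAt (fun t : ℝ => G ((t : ℂ) ^ 2)) (2 * (x : ℂ) * deriv G ((x : ℂ) ^ 2)) x := by
  have h1 : HasDerivAt (fun s : ℂ => s ^ 2) (2 * (x : ℂ)) (x : ℂ) := by
    simpa using hasDerivAt_pow 2 (x : ℂ)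
  have h3 := (hG _).hasDerivAt.comp (x : ℂ) h1
  have h4 := h3.comp_ofReal
  rw [mul_comm] at h4
  exact h4

lemma cw_deriv {w b : ℂ} (hb : b ≠ 0) (h : b ^ 2 = w + (a : ℂ) ^ 2) :
    deriv cw w = (-Complex.sin b) / (2 * b) := by
  have h1 := ev_deriv Complex.differentiable_cos (fun s => Complex.cos_neg s) hb
    (Complex.hasDerivAt_cos b)
  have h2 : HasDerivAt (ev Complex.cos) (deriv (ev Complex.cos) (b ^ 2)) (w + (a : ℂ) ^ 2) := by
    rw [← h]; exact (evcos_diff _).hasDerivAt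
  rw [h1] at h2
  exact (h2.comp_add_const w _).deriv

/-- (ii) ⇒ (iii) -/
theorem form_of_values {F : ℂ → ℂ} (hF : Differentiable ℂ F)
    (hb : ∀ z, ‖F z‖ ≤ Real.exp |z.im|)
    (h1 : ∀ k : ℕ, 1 ≤ k → F (node k) = (-1) ^ (k + 1))
    (h2 : ∀ k : ℕ, 1 ≤ k → F (-(node k)) = (-1) ^ (k + 1)) :
    ∃ α β : ℝ, 4 * α ^ 2 / Real.pi ^ 2 + β ^ 2 ≤ 1 ∧
      ∀ z : ℂ, F z = -cw (z ^ 2) + Complex.I * (α + β * z) * sw (z ^ 2) := by
  have hr : ∀ x : ℝ, ‖F x‖ ≤ 1 := fun x => by
    have := hb x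
    rwa [Complex.ofReal_im, abs_zero, Real.exp_zero] at this
  have hcwd : Differentiable ℂ (fun z : ℂ => cw (z ^ 2)) := cw_diff.comp (by fun_prop)
  obtain ⟨A, A1, hA⟩ := form_of_zeros (D := fun z => F z + cw (z ^ 2)) (hF.add hcwd) (C := 2)
    (by norm_num)
    (fun z => (norm_add_le _ _).trans (by have := hb z; have := cw_growth1 z; linarith))
    (fun k hk => by
      change F (node k) + cw ((node k : ℂ) ^ 2) = 0
      rw [h1 k hk, cw_node hk, pow_succ]; ring)
    (fun k hk => by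
      change F (-(node k)) + cw ((-(node k : ℂ)) ^ 2) = 0
      rw [h2 k hk, neg_sq, cw_node hk, pow_succ]; ring)
  have hFz : ∀ z, F z = -cw (z ^ 2) + (A + A1 * z) * sw (z ^ 2) := fun z => by
    linear_combination hA z
  -- the values of `F` at real points
  have hFre : ∀ x : ℝ, (F x).re = -Real.cos √(x ^ 2 + a ^ 2)
      + (A.re + A1.re * x) * (Real.sin √(x ^ 2 + a ^ 2) / √(x ^ 2 + a ^ 2)) := fun x => by
    rw [hFz x, cw_re, sw_re]
    rw [Complex.add_re, Complex.neg_re, Complex.ofReal_re, Complex.re_mul_ofReal, Complex.add_re,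
      Complex.re_mul_ofReal]
  have hFim : ∀ x : ℝ, (F x).im
      = (A.im + A1.im * x) * (Real.sin √(x ^ 2 + a ^ 2) / √(x ^ 2 + a ^ 2)) := fun x => by
    rw [hFz x, cw_re, sw_re]
    rw [Complex.add_im, Complex.neg_im, Complex.ofReal_im, Complex.im_mul_ofReal, Complex.add_im,
      Complex.im_mul_ofReal, neg_zero, zero_add]
  -- the real parts vanish
  have hsgn : ∀ x : ℝ, x ^ 2 = node 1 ^ 2 → F x = 1 → A.re + A1.re * x = 0 := by
    intro x hx hFx
    have hmax : IsLocalMax (fun t : ℝ => (F t).re) x := by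
      apply Eventually.of_forall
      intro t
      change (F t).re ≤ (F x).re
      rw [hFx, Complex.one_re]
      exact (Complex.re_le_norm _).trans (hr t)
    -- the derivative of `F` along the real line
    have hxc : ((x : ℂ)) ^ 2 = (node 1 : ℂ) ^ 2 := by exact_mod_cast hx
    have hpi : ((1 : ℕ) : ℂ) * Real.pi ≠ 0 := kpi_ne le_rfl
    have hn := node_w (k := 1) le_rfl
    have d1 : deriv cw ((x : ℂ) ^ 2) = 0 := by
      rw [hxc, cw_deriv hpi hn, sin_kpi]; ring
    have d2 : HasDerivAt (fun t : ℝ => cw ((t : ℂ) ^ 2)) 0 x := by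
      have := sq_comp_hasDeriv cw_diff x
      rw [d1, mul_zero] at this
      exact this
    have d3 := sq_comp_hasDeriv sw_diff x
    have d4 : deriv sw ((x : ℂ) ^ 2) = ((-(1 / (2 * Real.pi ^ 2)) : ℝ) : ℂ) := by
      rw [hxc, (sw_deriv hpi hn).deriv, sin_kpi, cos_kpi]
      have hpc : (Real.pi : ℂ) ≠ 0 := by exact_mod_cast Real.pi_ne_zero
      push_cast
      field_simp
      ring
    have d5 : sw ((x : ℂ) ^ 2) = 0 := by rw [hxc, sw_node le_rfl]
    have d6 : HasDerivAt (fun t : ℝ => A + A1 * (t : ℂ)) A1 x := by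
      have : HasDerivAt (fun t : ℂ => A + A1 * t) A1 (x : ℂ) := by
        have := ((hasDerivAt_id' (x : ℂ)).const_mul A1).const_add A
        rw [mul_one] at this
        exact this
      exact this.comp_ofReal
    have d7 := d2.neg.add (d6.mul d3)
    have e7 : (fun t : ℝ => F t) = (-fun t : ℝ => cw ((t : ℂ) ^ 2))
        + ((fun t : ℝ => A + A1 * (t : ℂ)) * fun t : ℝ => sw ((t : ℂ) ^ 2)) := by
      funext t
      simp only [Pi.add_apply, Pi.neg_apply, Pi.mul_apply]
      exact hFz t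
    have d8 : HasDerivAt (fun t : ℝ => F t)
        ((A + A1 * x) * ((x * (-(1 / Real.pi ^ 2)) : ℝ) : ℂ)) x := by
      rw [d4, d5] at d7
      have e8 : -0 + (A1 * 0 + (A + A1 * (x : ℂ)) * (2 * (x : ℂ) * ((-(1 / (2 * Real.pi ^ 2)) : ℝ) : ℂ)))
          = (A + A1 * x) * ((x * (-(1 / Real.pi ^ 2)) : ℝ) : ℂ) := by
        push_cast
        have hpc : (Real.pi : ℂ) ≠ 0 := by exact_mod_cast Real.pi_ne_zero
        field_simp
        ring
      rw [e8] at d7
      rw [e7]
      exact d7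
    have d9 : HasDerivAt (fun t : ℝ => (F t).re)
        (((A + A1 * x) * ((x * (-(1 / Real.pi ^ 2)) : ℝ) : ℂ)).re) x :=
      Complex.reCLM.hasFDerivAt.comp_hasDerivAt x d8
    have h0 := hmax.hasDerivAt_eq_zero d9
    rw [Complex.re_mul_ofReal, Complex.add_re, Complex.re_mul_ofReal] at h0
    have hx0 : x ≠ 0 := by
      rintro rfl
      have := node_pos (k := 1) le_rfl
      nlinarith
    have hpi2 : x * (-(1 / Real.pi ^ 2)) ≠ 0 := by
      have := Real.pi_pos
      apply mul_ne_zero hx0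
      apply neg_ne_zero.2
      positivity
    exact (mul_eq_zero.1 h0).resolve_right hpi2
  have s1 := hsgn (node 1) rfl (by rw [h1 1 le_rfl]; norm_num)
  have s2 := hsgn (-(node 1)) (by ring) (by
    have := h2 1 le_rfl
    push_cast
    rw [this]; norm_num)
  have hA0 : A.re = 0 := by linarith
  have hA10 : A1.re = 0 := by
    have h3 : A1.re * node 1 = 0 := by linarith
    exact (mul_eq_zero.1 h3).resolve_right (node_pos le_rfl).ne'
  have eA : A = Complex.I * (A.im : ℂ) := by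
    apply Complex.ext <;> simp [hA0]
  have eA1 : A1 = Complex.I * (A1.im : ℂ) := by
    apply Complex.ext <;> simp [hA10]
  refine ⟨A.im, A1.im, ?_, fun z => ?_⟩
  · -- the inequality
    set α := A.im with hα
    set β := A1.im with hβ
    have key : ∀ x : ℝ, Real.sin √(x ^ 2 + a ^ 2) ≠ 0 → (α + β * x) ^ 2 ≤ x ^ 2 + a ^ 2 := by
      intro x hs
      have hn : (F x).re * (F x).re + (F x).im * (F x).im ≤ 1 := by
        have h3 := Complex.normSq_apply (F x)
        rw [Complex.normSq_eq_norm_sq] at h3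
        have := hr x
        nlinarith [norm_nonneg (F x)]
      rw [hFre x, hFim x, hA0, hA10] at hn
      have hw := wpos x
      have hw2 : √(x ^ 2 + a ^ 2) ^ 2 = x ^ 2 + a ^ 2 := Real.sq_sqrt (by positivity)
      set w := √(x ^ 2 + a ^ 2) with hwdef
      have hcs := Real.sin_sq_add_cos_sq w
      have h4 : (α + β * x) ^ 2 * (Real.sin w / w) ^ 2 ≤ Real.sin w ^ 2 := by nlinarith
      have h5 : 0 < Real.sin w ^ 2 := by positivity
      rw [div_pow, ← mul_div_assoc, div_le_iff₀ (by positivity)] at h4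
      have h6 : (α + β * x) ^ 2 ≤ w ^ 2 := by
        by_contra hcon
        rw [not_le] at hcon
        nlinarith
      rw [hw2] at h6
      exact h6
    have hall : ∀ x : ℝ, (α + β * x) ^ 2 ≤ x ^ 2 + a ^ 2 := by
      have hcount : {x : ℝ | Real.sin √(x ^ 2 + a ^ 2) = 0}.Countable := by
        have hsub : {x : ℝ | Real.sin √(x ^ 2 + a ^ 2) = 0}
            ⊆ ⋃ n : ℤ, {√((n * Real.pi) ^ 2 - a ^ 2), -√((n * Real.pi) ^ 2 - a ^ 2)} := by
          intro x hx
          obtain ⟨n, hn⟩ := Real.sin_eq_zero_iff.1 hx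
          rw [mem_iUnion]
          refine ⟨n, ?_⟩
          have hw2 : √(x ^ 2 + a ^ 2) ^ 2 = x ^ 2 + a ^ 2 := Real.sq_sqrt (by positivity)
          rw [← hn] at hw2
          have h3 : (n * Real.pi) ^ 2 - a ^ 2 = x ^ 2 := by linarith
          rw [h3, Real.sqrt_sq_eq_abs]
          rcases abs_choice x with h | h
          · left; exact h.symm
          · right; rw [mem_singleton_iff, h, neg_neg]
        refine Countable.mono hsub (countable_iUnion fun n => ?_)
        exact (Set.toFinite _).countable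
      have hdense := hcount.dense_compl ℝ
      have hclosed : IsClosed {x : ℝ | (α + β * x) ^ 2 ≤ x ^ 2 + a ^ 2} :=
        isClosed_le (by fun_prop) (by fun_prop)
      have hsub : {x : ℝ | Real.sin √(x ^ 2 + a ^ 2) = 0}ᶜ
          ⊆ {x : ℝ | (α + β * x) ^ 2 ≤ x ^ 2 + a ^ 2} := fun x hx => key x hx
      have h3 := hclosed.closure_subset_iff.2 hsub
      rw [hdense.closure_eq] at h3
      intro x
      exact h3 (mem_univ x)
    have ha := a_pos
    have hpa : 4 * α ^ 2 / Real.pi ^ 2 = α ^ 2 / a ^ 2 := by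
      unfold a
      have := Real.pi_ne_zero
      field_simp
      ring
    rw [hpa]
    rcases eq_or_ne α 0 with h0 | h0
    · -- `β² ≤ 1`
      rw [h0]
      have h4 : β ^ 2 ≤ 1 := by
        by_contra hcon
        rw [not_le] at hcon
        -- take x large
        have h5 := hall (√(2 * a ^ 2 / (β ^ 2 - 1)))
        rw [h0, zero_add, mul_pow, Real.sq_sqrt (by
          have : 0 < β ^ 2 - 1 := by linarith
          positivity)] at h5
        have h6 : 0 < β ^ 2 - 1 := by linarith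
        have h7 : β ^ 2 * (2 * a ^ 2 / (β ^ 2 - 1)) - 2 * a ^ 2 / (β ^ 2 - 1) = 2 * a ^ 2 := by
          field_simp
        nlinarith [sq_nonneg a, mul_pos ha ha]
      have : (0:ℝ) ^ 2 / a ^ 2 = 0 := by norm_num
      rw [this]; linarith
    · have h5 := hall (a ^ 2 * β / α)
      have h6 : (α + β * (a ^ 2 * β / α)) ^ 2 = (α ^ 2 + a ^ 2 * β ^ 2) ^ 2 / α ^ 2 := by
        field_simp
      have h7 : (a ^ 2 * β / α) ^ 2 + a ^ 2 = a ^ 2 * (α ^ 2 + a ^ 2 * β ^ 2) / α ^ 2 := by
        field_simp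
        ring
      rw [h6, h7] at h5
      have hα2 : 0 < α ^ 2 := by positivity
      rw [div_le_div_iff_of_pos_right hα2] at h5
      have h8 : 0 < α ^ 2 + a ^ 2 * β ^ 2 := by positivity
      have h9 : α ^ 2 + a ^ 2 * β ^ 2 ≤ a ^ 2 := by
        by_contra hcon
        rw [not_le] at hcon
        nlinarith
      rw [div_add' _ _ _ (by positivity), div_le_one (by positivity)]
      linarith
  · rw [hFz z]
    nth_rw 1 [eA, eA1]
    ring

/-- (iii) ⇒ (i) -/
theorem U_of_form {F : ℂ → ℂ} {α β : ℂ}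
    (hz : ∀ z : ℂ, F z = -cw (z ^ 2) + Complex.I * (α + β * z) * sw (z ^ 2)) :
    U F = ((2 / Real.pi : ℝ) : ℂ) := by
  have hF : Differentiable ℂ F := by
    have h1 : Differentiable ℂ (fun z : ℂ => cw (z ^ 2)) := cw_diff.comp (by fun_prop)
    have h2 : Differentiable ℂ (fun z : ℂ => sw (z ^ 2)) := sw_diff.comp (by fun_prop)
    have : F = fun z => -cw (z ^ 2) + Complex.I * (α + β * z) * sw (z ^ 2) := funext hz
    rw [this]
    fun_prop
  have hev : evn F = fun z => (fun w => -cw w + (Complex.I * α) * sw w) (z ^ 2) := by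
    funext z
    unfold evn
    rw [hz z, hz (-z), neg_sq]
    ring
  have hcn : Differentiable ℂ (fun w => -cw w) := cw_diff.neg
  have hG : Differentiable ℂ (fun w => -cw w + (Complex.I * α) * sw w) :=
    hcn.add (sw_diff.const_mul _)
  rw [← U_evn hF, hev, U_sq hG, V_add hcn sw_diff (Complex.I * α), V_sw, mul_zero, add_zero]
  have : V (fun w => -cw w) = -V cw := by
    unfold V
    rw [deriv.fun_neg]
    ring
  rw [this, V_cw, neg_neg]

end Pool.Agent.K7.H38.MD
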