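import Pool.Agent.K7.H38.MD.Lower

set_option autoImplicit false

open Complex Filter Topology Metric Set
open scoped ContDiff
open Pool.Agent.Helper797.Bs

namespace Pool.Agent.K7.H38.MD

variable {F : ℂ × ℂ → ℂ}

lemma sqrt_add_le (a b α β : ℝ) :
    √((a + α) ^ 2 + (b + β) ^ 2) ≤ √(a ^ 2 + b ^ 2) + (|α| + |β|) := by
  have h1 : |a| ≤ √(a ^ 2 + b ^ 2) := Real.abs_le_sqrt (by nlinarith [sq_nonneg b])
  have h2 : |b| ≤ √(a ^ 2 + b ^ 2) := Real.abs_le_sqrt (by nlinarith [sq_nonneg a])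
  have h3 : √(a ^ 2 + b ^ 2) ^ 2 = a ^ 2 + b ^ 2 := Real.sq_sqrt (by positivity)
  apply Real.sqrt_le_iff.2
  refine ⟨by positivity, ?_⟩
  have e1 : a * α ≤ |a| * |α| := by rw [← abs_mul]; exact le_abs_self _
  have e2 : b * β ≤ |b| * |β| := by rw [← abs_mul]; exact le_abs_self _
  have e3 : |a| * |α| ≤ √(a ^ 2 + b ^ 2) * |α| := by gcongr
  have e4 : |b| * |β| ≤ √(a ^ 2 + b ^ 2) * |β| := by gcongr
  have e5 := sq_abs α
  have e6 := sq_abs β
  nlinarith [mul_nonneg (abs_nonneg α) (abs_nonneg β)]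

lemma spec_deriv (hF : SpecDisc F) (v : ℂ × ℂ) (hv1 : ‖v.1‖ ≤ 1) (hv2 : ‖v.2‖ ≤ 1) :
    SpecDisc (fun p => fderiv ℂ F p v) := by
  constructor
  · intro z hz
    have h1 : AnalyticAt ℂ (fderiv ℂ F) z := hF.1.fderiv z hz
    have h2 : AnalyticAt ℂ (fun L : ℂ × ℂ →L[ℂ] ℂ => (ContinuousLinearMap.apply ℂ ℂ v) L)
      (fderiv ℂ F z) := (ContinuousLinearMap.apply ℂ ℂ v).analyticAt _
    exact AnalyticAt.fun_comp (f := fderiv ℂ F) h2 h1
  · intro ε hε
    obtain ⟨C, hC⟩ := hF.2 ε hε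
    have hC0 : 0 ≤ C := by
      have h0 := (norm_nonneg _).trans (hC 0)
      by_contra hneg
      rw [not_le] at hneg
      have : C * Real.exp (√((0 : ℂ × ℂ).1.im ^ 2 + (0 : ℂ × ℂ).2.im ^ 2) + ε * ‖(0 : ℂ × ℂ)‖) < 0 :=
        mul_neg_of_neg_of_pos hneg (Real.exp_pos _)
      linarith
    refine ⟨C * Real.exp (2 + ε), fun p => ?_⟩
    have h1 : fderiv ℂ F p v = deriv (line F p v) 0 := by
      rw [(line_hasDeriv hF.1 p v 0).deriv]; simp
    change ‖fderiv ℂ F p v‖ ≤ _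
    rw [h1]
    have key := Complex.norm_deriv_le_of_forall_mem_sphere_norm_le (f := line F p v) (c := 0)
      (R := 1) (C := C * Real.exp (2 + ε) * Real.exp (√(p.1.im ^ 2 + p.2.im ^ 2) + ε * ‖p‖)) one_pos
      ((line_diff hF.1 p v).diffContOnCl) ?_
    · simpa using key
    · intro z hz
      have hz1 : ‖z‖ = 1 := by simpa using hz
      refine (hC _).trans ?_
      rw [mul_assoc, ← Real.exp_add]
      apply mul_le_mul_of_nonneg_left _ hC0
      apply Real.exp_le_exp.2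
      have b1 : |(z * v.1).im| ≤ 1 := by
        refine (Complex.abs_im_le_norm _).trans ?_
        rw [norm_mul, hz1, one_mul]; exact hv1
      have b2 : |(z * v.2).im| ≤ 1 := by
        refine (Complex.abs_im_le_norm _).trans ?_
        rw [norm_mul, hz1, one_mul]; exact hv2
      have b3 := sqrt_add_le p.1.im p.2.im (z * v.1).im (z * v.2).im
      have b4 : ‖p + z • v‖ ≤ ‖p‖ + 1 := by
        refine (norm_add_le _ _).trans ?_
        gcongr
        rw [norm_smul, hz1, one_mul, Prod.norm_def]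
        exact max_le hv1 hv2
      have e1 : (p + z • v).1.im = p.1.im + (z * v.1).im := by simp
      have e2 : (p + z • v).2.im = p.2.im + (z * v.2).im := by simp
      rw [e1, e2]
      nlinarith

/-- `T` maps `B` into itself -/
theorem T_mem {f : ℝ × ℝ → ℂ} (hf : f ∈ B) : T f ∈ B := by
  obtain ⟨⟨M, hM⟩, F, hF, hfF⟩ := hf
  refine ⟨⟨_, upper ⟨⟨M, hM⟩, F, hF, hfF⟩ hM⟩, ?_⟩
  have h1 := spec_deriv hF (0, 1) (by simp) (by simp)
  have h2 := spec_deriv h1 (1, 0) (by simp) (by simp)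
  refine ⟨_, h2, fun x y => ?_⟩
  rw [T_eq hF.1 hfF]
  unfold D2
  rw [fderiv_clm_apply (diff' hF.1 _) (by fun_prop)]
  simp

/-- the sup norm -/
noncomputable def supNorm (f : ℝ × ℝ → ℂ) : ℝ := ⨆ p, ‖f p‖

/-- the operator norm on `B` -/
noncomputable def opNorm (S : (ℝ × ℝ → ℂ) → ℝ × ℝ → ℂ) : ℝ :=
  sSup {r | ∃ f ∈ B, supNorm f ≤ 1 ∧ r = supNorm (S f)}

lemma supNorm_le {f : ℝ × ℝ → ℂ} {M : ℝ} (h : ∀ p, ‖f p‖ ≤ M) : supNorm f ≤ M := ciSup_le h

lemma le_supNorm {f : ℝ × ℝ → ℂ} (hf : f ∈ B) (p : ℝ × ℝ) : ‖f p‖ ≤ supNorm f := by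
  obtain ⟨⟨M, hM⟩, -⟩ := hf
  exact le_ciSup (f := fun p => ‖f p‖) ⟨M, by rintro _ ⟨p, rfl⟩; exact hM p⟩ p

lemma supNorm_Tfs : supNorm (T fs) = 2 / Real.pi := by
  apply le_antisymm
  · apply supNorm_le
    intro p
    have := upper fs_mem fs_le p
    simpa using this
  · have h := le_supNorm (T_mem fs_mem) 0
    rw [T_fs, Complex.norm_real, Real.norm_eq_abs, abs_of_nonneg (by positivity)] at h
    exact h

/-- the norm of `T` is `2 / π` -/
theorem opNorm_T : opNorm T = 2 / Real.pi := by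
  have h : IsGreatest {r | ∃ f ∈ B, supNorm f ≤ 1 ∧ r = supNorm (T f)} (2 / Real.pi) := by
    constructor
    · exact ⟨fs, fs_mem, supNorm_le fs_le, supNorm_Tfs.symm⟩
    · rintro r ⟨f, hf, hf1, rfl⟩
      apply supNorm_le
      intro p
      have := upper hf (fun p => (le_supNorm hf p).trans hf1) p
      simpa using this
  exact h.csSup_eq

end Pool.Agent.K7.H38.MD
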