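import Pool.Agent.K7.H38.MD.Extr2
import Pool.Agent.K7.H38.MD.Norm

set_option autoImplicit false

open Complex Filter Topology Metric Set
open scoped ContDiff
open Pool.Agent.Helper797.Bs

namespace Pool.Agent.K7.H38.MD

/-- the points `t u` and `t v` of the two diagonals -/
noncomputable def pu (t : ℝ) : ℝ × ℝ := (t / √2, t / √2)
noncomputable def pv (t : ℝ) : ℝ × ℝ := (t / √2, -(t / √2))

lemma hs_eq : hs = 1 / √2 := by
  unfold hs
  rw [Real.sqrt_div zero_le_one, Real.sqrt_one]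

lemma pu_eq (t : ℝ) : pu t = (t * hs, t * hs) := by
  unfold pu; rw [hs_eq]; congr 1 <;> ring

lemma pv_eq (t : ℝ) : pv t = (t * hs, -(t * hs)) := by
  unfold pv; rw [hs_eq]; congr 1 <;> ring

lemma line_p {F : ℂ × ℂ → ℂ} {f : ℝ × ℝ → ℂ}
    (hf : ∀ x y : ℝ, f (x, y) = F ((x : ℂ), (y : ℂ))) (t : ℝ) : line F 0 vp (t : ℂ) = f (pu t) := by
  rw [pu_eq, hf]
  simp [line, vp]

lemma line_m {F : ℂ × ℂ → ℂ} {f : ℝ × ℝ → ℂ}
    (hf : ∀ x y : ℝ, f (x, y) = F ((x : ℂ), (y : ℂ))) (t : ℝ) : line F 0 vm (t : ℂ) = f (pv t) := by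
  rw [pv_eq, hf]
  simp [line, vm]

lemma U_neg (G : ℂ → ℂ) : U (fun z => -G z) = -U G := by
  unfold U
  have h1 : deriv (fun z => -G z) = fun z => -deriv G z := by
    funext z; exact deriv.fun_neg
  rw [h1, deriv.fun_neg]
  ring

/-- values at the nodes -/
def Values (f : ℝ × ℝ → ℂ) : Prop :=
  ∀ k : ℕ, 1 ≤ k →
    f (pu (node k)) = (-1) ^ (k + 1) ∧ f (pu (-node k)) = (-1) ^ (k + 1) ∧
    f (pv (node k)) = (-1) ^ k ∧ f (pv (-node k)) = (-1) ^ k

/-- the form on the diagonals -/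
def Form (f : ℝ × ℝ → ℂ) : Prop :=
  ∃ α β γ : ℝ, 4 * α ^ 2 / Real.pi ^ 2 + β ^ 2 ≤ 1 ∧ 4 * α ^ 2 / Real.pi ^ 2 + γ ^ 2 ≤ 1 ∧
    ∀ t : ℝ,
      f (pu t) = -((Real.cos √(t ^ 2 + a ^ 2) : ℝ) : ℂ)
        + Complex.I * (((α + β * t) * (Real.sin √(t ^ 2 + a ^ 2) / √(t ^ 2 + a ^ 2)) : ℝ) : ℂ) ∧
      f (pv t) = ((Real.cos √(t ^ 2 + a ^ 2) : ℝ) : ℂ)
        + Complex.I * (((α + γ * t) * (Real.sin √(t ^ 2 + a ^ 2) / √(t ^ 2 + a ^ 2)) : ℝ) : ℂ)

lemma e00 : (((0 : ℝ) : ℂ), ((0 : ℝ) : ℂ)) = (0 : ℂ × ℂ) := Prod.ext (by simp) (by simp)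

lemma line_bounds {F : ℂ × ℂ → ℂ} (hF : SpecDisc F) {f : ℝ × ℝ → ℂ}
    (hf : ∀ x y : ℝ, f (x, y) = F ((x : ℂ), (y : ℂ))) (h1 : ∀ p, ‖f p‖ ≤ 1) :
    (∀ z, ‖line F 0 vp z‖ ≤ Real.exp |z.im|) ∧ (∀ z, ‖line F 0 vm z‖ ≤ Real.exp |z.im|) := by
  have hM' : ∀ x y : ℝ, ‖F ((x : ℂ), (y : ℂ))‖ ≤ 1 := fun x y => by rw [← hf]; exact h1 _
  constructor
  · intro z
    have := growth_p hF hM' 0 0 z
    rw [one_mul, e00] at this
    exact this
  · intro z
    have := growth_m hF hM' 0 0 z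
    rw [one_mul, e00] at this
    exact this

lemma T_zero {F : ℂ × ℂ → ℂ} (hF : SpecDisc F) {f : ℝ × ℝ → ℂ}
    (hf : ∀ x y : ℝ, f (x, y) = F ((x : ℂ), (y : ℂ))) :
    T f 0 = (U (line F 0 vp) - U (line F 0 vm)) / 2 := by
  have := T_lines hF.1 hf 0
  have e : ((((0 : ℝ × ℝ).1 : ℝ) : ℂ), (((0 : ℝ × ℝ).2 : ℝ) : ℂ)) = (0 : ℂ × ℂ) := e00
  rw [e] at this
  exact this

theorem values_of_T {f : ℝ × ℝ → ℂ} (hfB : f ∈ B) (h1 : ∀ p, ‖f p‖ ≤ 1)
    (hT : T f 0 = ((2 / Real.pi : ℝ) : ℂ)) : Values f := by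
  obtain ⟨-, F, hF, hf⟩ := hfB
  obtain ⟨hp, hm⟩ := line_bounds hF hf h1
  have dp := line_diff hF.1 0 vp
  have dm := line_diff hF.1 0 vm
  have hmn : ∀ z, ‖-line F 0 vm z‖ ≤ Real.exp |z.im| := fun z => by rw [norm_neg]; exact hm z
  have up := U_le dp (M := 1) zero_le_one (fun z => by rw [one_mul]; exact hp z)
  have um := U_le dm (M := 1) zero_le_one (fun z => by rw [one_mul]; exact hm z)
  rw [T_zero hF hf] at hT
  have hpi : (Real.pi : ℂ) ≠ 0 := by exact_mod_cast Real.pi_ne_zero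
  have hpn : ‖((Real.pi / 2 : ℝ) : ℂ)‖ = Real.pi / 2 := by
    rw [Complex.norm_real, Real.norm_eq_abs, abs_of_pos (by positivity)]
  have key := two_eq (x := ((Real.pi / 2 : ℝ) : ℂ) * U (line F 0 vp))
    (y := -(((Real.pi / 2 : ℝ) : ℂ) * U (line F 0 vm))) (e := 1) ?_ ?_ (by norm_num) (by norm_num) ?_
  · obtain ⟨k1, k2⟩ := key
    have e1 : U (line F 0 vp) = ((2 / Real.pi : ℝ) : ℂ) := by
      push_cast at k1 ⊢
      field_simp at k1 ⊢
      linear_combination k1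
    have e2 : U (fun z => -line F 0 vm z) = ((2 / Real.pi : ℝ) : ℂ) := by
      rw [U_neg]
      push_cast at k2 ⊢
      field_simp at k2 ⊢
      linear_combination k2
    intro k hk
    obtain ⟨v1, v2⟩ := values_of_U dp hp e1 hk
    obtain ⟨v3, v4⟩ := values_of_U (F := fun z => -line F 0 vm z) dm.neg hmn e2 hk
    rw [line_p hf] at v1
    rw [← Complex.ofReal_neg, line_p hf] at v2
    rw [line_m hf] at v3
    rw [← Complex.ofReal_neg, line_m hf] at v4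
    refine ⟨v1, v2, ?_, ?_⟩
    · rw [pow_succ] at v3; linear_combination -v3
    · rw [pow_succ] at v4; linear_combination -v4
  · rw [norm_mul, hpn]
    calc Real.pi / 2 * ‖U (line F 0 vp)‖ ≤ Real.pi / 2 * (2 / Real.pi * 1) := by gcongr
      _ = 1 := by have := Real.pi_ne_zero; field_simp
  · rw [norm_neg, norm_mul, hpn]
    calc Real.pi / 2 * ‖U (line F 0 vm)‖ ≤ Real.pi / 2 * (2 / Real.pi * 1) := by gcongr
      _ = 1 := by have := Real.pi_ne_zero; field_simp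
  · have : ((Real.pi / 2 : ℝ) : ℂ) * ((2 / Real.pi : ℝ) : ℂ) = 1 := by
      push_cast; field_simp
    linear_combination ((Real.pi / 2 : ℝ) : ℂ) * hT + this

/-- values ⇒ form and `T f 0 = 2/π` -/
theorem form_of_values2 {f : ℝ × ℝ → ℂ} (hfB : f ∈ B) (h1 : ∀ p, ‖f p‖ ≤ 1)
    (hv : Values f) : Form f ∧ T f 0 = ((2 / Real.pi : ℝ) : ℂ) := by
  obtain ⟨-, F, hF, hf⟩ := hfB
  obtain ⟨hp, hm⟩ := line_bounds hF hf h1
  have dp := line_diff hF.1 0 vp
  have dm := line_diff hF.1 0 vm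
  have hmn : ∀ z, ‖-line F 0 vm z‖ ≤ Real.exp |z.im| := fun z => by rw [norm_neg]; exact hm z
  obtain ⟨α, β, hαβ, hF1⟩ := form_of_values dp hp
    (fun k hk => by rw [line_p hf]; exact (hv k hk).1)
    (fun k hk => by rw [← Complex.ofReal_neg, line_p hf]; exact (hv k hk).2.1)
  obtain ⟨α', γ', hαγ, hF2⟩ := form_of_values (F := fun z => -line F 0 vm z) dm.neg hmn
    (fun k hk => by
      rw [line_m hf, (hv k hk).2.2.1, pow_succ]; ring)
    (fun k hk => by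
      rw [← Complex.ofReal_neg, line_m hf, (hv k hk).2.2.2, pow_succ]; ring)
  have hαα : α = -α' := by
    have z1 := hF1 0
    have z2 := hF2 0
    have e0 : line F 0 vp 0 = line F 0 vm 0 := by simp [line]
    simp only [ne_eq, OfNat.ofNat_ne_zero, not_false_eq_true, zero_pow, mul_zero, add_zero] at z1 z2
    rw [cw_zero, sw_zero] at z1 z2
    rw [e0] at z1
    have h3 : Complex.I * ((α : ℂ) + α') * (1 / (a : ℂ)) = 0 := by linear_combination -z1 - z2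
    have h4 : ((α : ℂ) + α') = 0 := by
      have ha := a_ne
      have hi := Complex.I_ne_zero
      have : (1 / (a : ℂ)) ≠ 0 := one_div_ne_zero ha
      rcases mul_eq_zero.1 h3 with h | h
      · exact (mul_eq_zero.1 h).resolve_left hi
      · exact absurd h this
    have h5 : α + α' = 0 := by exact_mod_cast h4
    linarith
  constructor
  · refine ⟨α, β, -γ', hαβ, ?_, fun t => ⟨?_, ?_⟩⟩
    · rw [hαα]
      have : 4 * (-α') ^ 2 / Real.pi ^ 2 + (-γ') ^ 2 = 4 * α' ^ 2 / Real.pi ^ 2 + γ' ^ 2 := by ring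
      rw [this]; exact hαγ
    · rw [← line_p hf, hF1, cw_re, sw_re]
      push_cast
      ring
    · have h := hF2 t
      rw [cw_re, sw_re] at h
      have h2 : f (pv t) = -(-line F 0 vm t) := by rw [neg_neg, line_m hf]
      rw [h2, h, hαα]
      push_cast
      ring
  · rw [T_zero hF hf, U_of_form hF1]
    have := U_of_form hF2
    rw [U_neg] at this
    have h3 : U (line F 0 vm) = -((2 / Real.pi : ℝ) : ℂ) := by rw [← this, neg_neg]
    rw [h3]; ring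

lemma sqrt_node {k : ℕ} (hk : 1 ≤ k) : √(node k ^ 2 + a ^ 2) = k * Real.pi := by
  rw [node_sq hk, sub_add_cancel, Real.sqrt_sq (by positivity)]

theorem values_of_form {f : ℝ × ℝ → ℂ} (h : Form f) : Values f := by
  obtain ⟨α, β, γ, -, -, h⟩ := h
  intro k hk
  have e1 := sqrt_node hk
  have e2 : √((-node k) ^ 2 + a ^ 2) = k * Real.pi := by rw [neg_sq]; exact e1
  have c1 : Real.cos (k * Real.pi) = (-1) ^ k := Real.cos_nat_mul_pi k
  have s1 : Real.sin (k * Real.pi) = 0 := Real.sin_nat_mul_pi k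
  refine ⟨?_, ?_, ?_, ?_⟩
  · rw [(h _).1, e1, c1, s1, pow_succ]; push_cast; ring
  · rw [(h _).1, e2, c1, s1, pow_succ]; push_cast; ring
  · rw [(h _).2, e1, c1, s1]; push_cast; ring
  · rw [(h _).2, e2, c1, s1]; push_cast; ring

/-- Q2: characterisation of the normal extremals -/
theorem extremal_iff {f : ℝ × ℝ → ℂ} (hfB : f ∈ B) (h1 : ∀ p, ‖f p‖ ≤ 1) :
    (T f 0 = ((2 / Real.pi : ℝ) : ℂ) ↔ Values f) ∧ (T f 0 = ((2 / Real.pi : ℝ) : ℂ) ↔ Form f) := by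
  constructor
  · exact ⟨values_of_T hfB h1, fun h => (form_of_values2 hfB h1 h).2⟩
  · exact ⟨fun h => (form_of_values2 hfB h1 (values_of_T hfB h1 h)).1,
      fun h => (form_of_values2 hfB h1 (values_of_form h)).2⟩

end Pool.Agent.K7.H38.MD
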