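import Pool.Agent.K7.H38.MD.Extr3

set_option autoImplicit false

open Complex Filter Topology Metric Set
open scoped ContDiff
open Pool.Agent.Helper797.Bs

namespace Pool.Agent.K7.H38.MD

/-- entire functions of exponential type zero -/
def Sub (P : ℂ × ℂ → ℂ) : Prop :=
  AnalyticOnNhd ℂ P univ ∧ ∀ ε > 0, ∃ C : ℝ, 0 ≤ C ∧ ∀ z : ℂ × ℂ, ‖P z‖ ≤ C * Real.exp (ε * ‖z‖)

lemma Sub.const (c : ℂ) : Sub (fun _ => c) := by
  refine ⟨fun z _ => analyticAt_const, fun ε hε => ⟨‖c‖, norm_nonneg _, fun z => ?_⟩⟩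
  have : 1 ≤ Real.exp (ε * ‖z‖) := Real.one_le_exp (by positivity)
  nlinarith [norm_nonneg c]

lemma lin_le_exp {ε : ℝ} (hε : 0 < ε) (t : ℝ) : t ≤ 1 / ε * Real.exp (ε * t) := by
  have h := Real.add_one_le_exp (ε * t)
  rw [div_mul_eq_mul_div, le_div_iff₀ hε]
  nlinarith

lemma Sub.fst : Sub (fun z => z.1) := by
  refine ⟨fun z _ => analyticAt_fst, fun ε hε => ⟨1 / ε, by positivity, fun z => ?_⟩⟩
  exact (norm_fst_le z).trans (lin_le_exp hε _)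

lemma Sub.snd : Sub (fun z => z.2) := by
  refine ⟨fun z _ => analyticAt_snd, fun ε hε => ⟨1 / ε, by positivity, fun z => ?_⟩⟩
  exact (norm_snd_le z).trans (lin_le_exp hε _)

lemma Sub.add {P Q : ℂ × ℂ → ℂ} (hP : Sub P) (hQ : Sub Q) : Sub (fun z => P z + Q z) := by
  refine ⟨fun z hz => (hP.1 z hz).add (hQ.1 z hz), fun ε hε => ?_⟩
  obtain ⟨C, hC, h1⟩ := hP.2 ε hε
  obtain ⟨D, hD, h2⟩ := hQ.2 ε hε
  refine ⟨C + D, by positivity, fun z => (norm_add_le _ _).trans ?_⟩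
  have := h1 z
  have := h2 z
  linarith

lemma Sub.mul {P Q : ℂ × ℂ → ℂ} (hP : Sub P) (hQ : Sub Q) : Sub (fun z => P z * Q z) := by
  refine ⟨fun z hz => (hP.1 z hz).mul (hQ.1 z hz), fun ε hε => ?_⟩
  obtain ⟨C, hC, h1⟩ := hP.2 (ε / 2) (by positivity)
  obtain ⟨D, hD, h2⟩ := hQ.2 (ε / 2) (by positivity)
  refine ⟨C * D, by positivity, fun z => ?_⟩
  rw [norm_mul]
  have e : Real.exp (ε * ‖z‖) = Real.exp (ε / 2 * ‖z‖) * Real.exp (ε / 2 * ‖z‖) := by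
    rw [← Real.exp_add]; ring_nf
  rw [e]
  calc ‖P z‖ * ‖Q z‖ ≤ (C * Real.exp (ε / 2 * ‖z‖)) * (D * Real.exp (ε / 2 * ‖z‖)) := by
        gcongr
        · exact h1 z
        · exact h2 z
    _ = _ := by ring

lemma Sub.pow {P : ℂ × ℂ → ℂ} (hP : Sub P) (n : ℕ) : Sub (fun z => P z ^ n) := by
  induction n with
  | zero => simpa using Sub.const 1
  | succ n ih =>
    have : (fun z => P z ^ (n + 1)) = fun z => P z ^ n * P z := by funext z; rw [pow_succ]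
    rw [this]
    exact ih.mul hP

lemma nonneg_of {F : ℂ × ℂ → ℂ} {C ε : ℝ}
    (hC : ∀ z : ℂ × ℂ, ‖F z‖ ≤ C * Real.exp (√(z.1.im ^ 2 + z.2.im ^ 2) + ε * ‖z‖)) : 0 ≤ C := by
  have h0 := (norm_nonneg _).trans (hC 0)
  by_contra hneg
  rw [not_le] at hneg
  have : C * Real.exp (√((0 : ℂ × ℂ).1.im ^ 2 + (0 : ℂ × ℂ).2.im ^ 2) + ε * ‖(0 : ℂ × ℂ)‖) < 0 :=
    mul_neg_of_neg_of_pos hneg (Real.exp_pos _)
  linarith

lemma SpecDisc.add {F G : ℂ × ℂ → ℂ} (hF : SpecDisc F) (hG : SpecDisc G) :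
    SpecDisc (fun z => F z + G z) := by
  refine ⟨fun z hz => (hF.1 z hz).add (hG.1 z hz), fun ε hε => ?_⟩
  obtain ⟨C, h1⟩ := hF.2 ε hε
  obtain ⟨D, h2⟩ := hG.2 ε hε
  refine ⟨C + D, fun z => (norm_add_le _ _).trans ?_⟩
  have := h1 z
  have := h2 z
  linarith

lemma Sub.mul_spec {P F : ℂ × ℂ → ℂ} (hP : Sub P) (hF : SpecDisc F) :
    SpecDisc (fun z => P z * F z) := by
  refine ⟨fun z hz => (hP.1 z hz).mul (hF.1 z hz), fun ε hε => ?_⟩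
  obtain ⟨C, hC, h1⟩ := hP.2 (ε / 2) (by positivity)
  obtain ⟨D, h2⟩ := hF.2 (ε / 2) (by positivity)
  have hD := nonneg_of h2
  refine ⟨C * D, fun z => ?_⟩
  rw [norm_mul]
  have e : Real.exp (√(z.1.im ^ 2 + z.2.im ^ 2) + ε * ‖z‖)
      = Real.exp (ε / 2 * ‖z‖) * Real.exp (√(z.1.im ^ 2 + z.2.im ^ 2) + ε / 2 * ‖z‖) := by
    rw [← Real.exp_add]; ring_nf
  rw [e]
  calc ‖P z‖ * ‖F z‖ ≤ (C * Real.exp (ε / 2 * ‖z‖))
        * (D * Real.exp (√(z.1.im ^ 2 + z.2.im ^ 2) + ε / 2 * ‖z‖)) := by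
        gcongr
        · exact h1 z
        · exact h2 z
    _ = _ := by ring

lemma spec_of_bound {F : ℂ × ℂ → ℂ} (hF : AnalyticOnNhd ℂ F univ) {K : ℝ} (hK : 0 ≤ K)
    (h : ∀ z : ℂ × ℂ, ‖F z‖ ≤ K * Real.exp √(z.1.im ^ 2 + z.2.im ^ 2)) : SpecDisc F := by
  refine ⟨hF, fun ε hε => ⟨K, fun z => (h z).trans ?_⟩⟩
  gcongr
  have : 0 ≤ ε * ‖z‖ := by positivity
  linarith

lemma sw_spec : SpecDisc (fun z => sw (z.1 ^ 2 + z.2 ^ 2)) := by
  obtain ⟨K, hK, h⟩ := sw_growth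
  exact spec_of_bound (an_comp sw_diff) hK (fun z => h z.1 z.2)

/-- the linear family -/
noncomputable def famL (α β γ : ℝ) (p : ℝ × ℝ) : ℂ :=
  fs p + Complex.I * (((α + β * ((p.1 + p.2) / √2) + γ * ((p.1 - p.2) / √2)) *
    (Real.sin √(p.1 ^ 2 + p.2 ^ 2 + a ^ 2) / √(p.1 ^ 2 + p.2 ^ 2 + a ^ 2)) : ℝ) : ℂ)

lemma sw_real2 (x y : ℝ) : sw ((x : ℂ) ^ 2 + (y : ℂ) ^ 2)
    = ((Real.sin √(x ^ 2 + y ^ 2 + a ^ 2) / √(x ^ 2 + y ^ 2 + a ^ 2) : ℝ) : ℂ) := by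
  have ha := a_pos
  have h0 : 0 < √(x ^ 2 + y ^ 2 + a ^ 2) := Real.sqrt_pos.2 (by positivity)
  have hc : ((√(x ^ 2 + y ^ 2 + a ^ 2) : ℝ) : ℂ) ≠ 0 := by exact_mod_cast h0.ne'
  rw [sw_eq (s := ((√(x ^ 2 + y ^ 2 + a ^ 2) : ℝ) : ℂ)), snc_ne hc]
  · push_cast; rfl
  · rw [← Complex.ofReal_pow, Real.sq_sqrt (by positivity)]
    push_cast
    ring

lemma famL_mem {α β γ : ℝ} (h : 4 * α ^ 2 / Real.pi ^ 2 + β ^ 2 + γ ^ 2 ≤ 1) :
    famL α β γ ∈ B ∧ ∀ p, ‖famL α β γ p‖ ≤ 1 := by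
  have hle : ∀ p, ‖famL α β γ p‖ ≤ 1 := by
    rintro ⟨x, y⟩
    have ha := a_pos
    unfold famL fs
    dsimp only
    set w := √(x ^ 2 + y ^ 2 + a ^ 2) with hw
    have hw0 : 0 < w := Real.sqrt_pos.2 (by positivity)
    have hw2 : w ^ 2 = x ^ 2 + y ^ 2 + a ^ 2 := Real.sq_sqrt (by positivity)
    set L := α + β * ((x + y) / √2) + γ * ((x - y) / √2) with hL
    have h2 : √2 ^ 2 = (2:ℝ) := Real.sq_sqrt (by norm_num)
    have hL2 : L ^ 2 ≤ w ^ 2 := by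
      have hs2 : (0:ℝ) < √2 := by positivity
      set u := (x + y) / √2 with hu
      set v := (x - y) / √2 with hv
      have huv : u ^ 2 + v ^ 2 = x ^ 2 + y ^ 2 := by
        rw [hu, hv, div_pow, div_pow, h2]; ring
      have hpa : 4 * α ^ 2 / Real.pi ^ 2 = (α / a) ^ 2 := by
        unfold a
        have := Real.pi_ne_zero
        field_simp
        ring
      rw [hpa] at h
      have hαa : α = (α / a) * a := by field_simp
      set α' := α / a with hα'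
      have hcs : L ^ 2 ≤ (α' ^ 2 + β ^ 2 + γ ^ 2) * (a ^ 2 + u ^ 2 + v ^ 2) := by
        rw [hL, hαa]
        nlinarith [sq_nonneg (α' * u - β * a), sq_nonneg (α' * v - γ * a), sq_nonneg (β * v - γ * u)]
      rw [hw2, ← huv]
      have : 0 ≤ a ^ 2 + u ^ 2 + v ^ 2 := by positivity
      nlinarith
    have hX : (2 * x * y / (x ^ 2 + y ^ 2)) ^ 2 ≤ 1 := by
      rw [sq_le_one_iff_abs_le_one, abs_div, abs_of_nonneg (by positivity : 0 ≤ x ^ 2 + y ^ 2)]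
      apply div_le_one_of_le₀ _ (by positivity)
      rw [abs_le]
      constructor <;> nlinarith [sq_nonneg (x + y), sq_nonneg (x - y)]
    set X := 2 * x * y / (x ^ 2 + y ^ 2)
    have hn : ‖((-(X * Real.cos w) : ℝ) : ℂ) + Complex.I * ((L * (Real.sin w / w) : ℝ) : ℂ)‖ ^ 2
        = (X * Real.cos w) ^ 2 + (L * (Real.sin w / w)) ^ 2 := by
      rw [← Complex.normSq_eq_norm_sq, Complex.normSq_apply]
      simp only [Complex.add_re, Complex.add_im, Complex.ofReal_re, Complex.ofReal_im,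
        Complex.mul_re, Complex.mul_im, Complex.I_re, Complex.I_im]
      ring
    have h5 : (L * (Real.sin w / w)) ^ 2 ≤ Real.sin w ^ 2 := by
      rw [mul_pow, div_pow, ← mul_div_assoc, div_le_iff₀ (by positivity)]
      nlinarith [sq_nonneg (Real.sin w)]
    have h6 : (X * Real.cos w) ^ 2 ≤ Real.cos w ^ 2 := by
      rw [mul_pow]; nlinarith [sq_nonneg (Real.cos w)]
    have hcs := Real.sin_sq_add_cos_sq w
    have h7 : ‖((-(X * Real.cos w) : ℝ) : ℂ) + Complex.I * ((L * (Real.sin w / w) : ℝ) : ℂ)‖ ^ 2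
        ≤ 1 ^ 2 := by
      rw [hn]; linarith
    exact abs_le_of_sq_le_sq' h7 zero_le_one |>.2
  refine ⟨⟨⟨1, hle⟩, fun z => Fs z + (Complex.I * (α + β * (hs * (z.1 + z.2)) + γ * (hs * (z.1 + (-1) * z.2))))
    * sw (z.1 ^ 2 + z.2 ^ 2), ?_, ?_⟩, hle⟩
  · apply Fs_spec.add
    refine Sub.mul_spec ?_ sw_spec
    refine (Sub.const _).mul (((Sub.const _).add ((Sub.const _).mul ((Sub.const _).mul
      (Sub.fst.add Sub.snd)))).add ((Sub.const _).mul ((Sub.const _).mul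
      (Sub.fst.add ((Sub.const _).mul Sub.snd)))))
  · intro x y
    unfold famL
    rw [fs_eq]
    dsimp only
    rw [sw_real2, hs_eq]
    push_cast
    ring

lemma pu_sq (t : ℝ) : (pu t).1 ^ 2 + (pu t).2 ^ 2 = t ^ 2 := by
  have h2 : √2 ^ 2 = (2:ℝ) := Real.sq_sqrt (by norm_num)
  unfold pu; dsimp only
  rw [div_pow, h2]; ring

lemma pv_sq (t : ℝ) : (pv t).1 ^ 2 + (pv t).2 ^ 2 = t ^ 2 := by
  have h2 : √2 ^ 2 = (2:ℝ) := Real.sq_sqrt (by norm_num)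
  unfold pv; dsimp only
  rw [neg_sq, div_pow, h2]; ring

lemma fs_pu (t : ℝ) : fs (pu t) = -((Real.cos √(t ^ 2 + a ^ 2) : ℝ) : ℂ) := by
  have h2 : √2 ^ 2 = (2:ℝ) := Real.sq_sqrt (by norm_num)
  unfold fs
  rw [pu_sq]
  rcases eq_or_ne t 0 with rfl | ht
  · have : √((0:ℝ) ^ 2 + a ^ 2) = a := by
      rw [zero_pow two_ne_zero, zero_add, Real.sqrt_sq a_pos.le]
    rw [this]
    have hc : Real.cos a = 0 := by unfold a; exact Real.cos_pi_div_two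
    rw [hc]; simp
  · have : 2 * (pu t).1 * (pu t).2 / t ^ 2 = 1 := by
      unfold pu; dsimp only
      have : 2 * (t / √2) * (t / √2) = t ^ 2 := by
        have e : 2 * (t / √2) * (t / √2) = 2 * t ^ 2 / √2 ^ 2 := by field_simp
        rw [e, h2]; ring
      rw [this]; field_simp
    rw [this]; push_cast; ring

lemma fs_pv (t : ℝ) : fs (pv t) = ((Real.cos √(t ^ 2 + a ^ 2) : ℝ) : ℂ) := by
  have h2 : √2 ^ 2 = (2:ℝ) := Real.sq_sqrt (by norm_num)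
  unfold fs
  rw [pv_sq]
  rcases eq_or_ne t 0 with rfl | ht
  · have : √((0:ℝ) ^ 2 + a ^ 2) = a := by
      rw [zero_pow two_ne_zero, zero_add, Real.sqrt_sq a_pos.le]
    rw [this]
    have hc : Real.cos a = 0 := by unfold a; exact Real.cos_pi_div_two
    rw [hc]; simp
  · have : 2 * (pv t).1 * (pv t).2 / t ^ 2 = -1 := by
      unfold pv; dsimp only
      have : 2 * (t / √2) * (-(t / √2)) = -t ^ 2 := by
        have e : 2 * (t / √2) * (-(t / √2)) = -(2 * t ^ 2 / √2 ^ 2) := by field_simp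
        rw [e, h2]; ring
      rw [this]; field_simp
    rw [this]; push_cast; ring

lemma values_fs : Values fs := by
  apply values_of_form
  refine ⟨0, 0, 0, by norm_num, by norm_num, fun t => ⟨?_, ?_⟩⟩
  · rw [fs_pu]; simp
  · rw [fs_pv]; simp

theorem famL_extremal {α β γ : ℝ} (h : 4 * α ^ 2 / Real.pi ^ 2 + β ^ 2 + γ ^ 2 ≤ 1) :
    famL α β γ ∈ B ∧ (∀ p, ‖famL α β γ p‖ ≤ 1) ∧
      T (famL α β γ) 0 = ((2 / Real.pi : ℝ) : ℂ) := by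
  obtain ⟨h1, h2⟩ := famL_mem h
  refine ⟨h1, h2, (extremal_iff h1 h2).2.2 ⟨α, β, γ, ?_, ?_, fun t => ⟨?_, ?_⟩⟩⟩
  · nlinarith [sq_nonneg γ]
  · nlinarith [sq_nonneg β]
  · unfold famL
    rw [fs_pu, pu_sq]
    have e1 : ((pu t).1 + (pu t).2) / √2 = t := by
      have h2 : √2 ^ 2 = (2:ℝ) := Real.sq_sqrt (by norm_num)
      unfold pu; dsimp only
      have e : (t / √2 + t / √2) / √2 = 2 * t / √2 ^ 2 := by field_simp; ring
      rw [e, h2]; ring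
    have e2 : ((pu t).1 - (pu t).2) / √2 = 0 := by
      unfold pu; dsimp only; rw [sub_self, zero_div]
    rw [e1, e2, mul_zero, add_zero]
  · unfold famL
    rw [fs_pv, pv_sq]
    have e1 : ((pv t).1 - (pv t).2) / √2 = t := by
      have h2 : √2 ^ 2 = (2:ℝ) := Real.sq_sqrt (by norm_num)
      unfold pv; dsimp only
      have e : (t / √2 - -(t / √2)) / √2 = 2 * t / √2 ^ 2 := by field_simp; ring
      rw [e, h2]; ring
    have e2 : ((pv t).1 + (pv t).2) / √2 = 0 := by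
      unfold pv; dsimp only; rw [add_neg_cancel, zero_div]
    rw [e1, e2, mul_zero, add_zero]

/-- the second family -/
theorem famH_extremal {h : ℂ × ℂ → ℂ} (hh : SpecDisc h)
    (hb : ∀ x y : ℝ, (x ^ 2 + y ^ 2) ^ 2 * ‖h ((x : ℂ), (y : ℂ))‖ ≤ 1 / 2) :
    (fun p : ℝ × ℝ => fs p + ((p.1 : ℂ) ^ 2 - (p.2 : ℂ) ^ 2) ^ 2 * h ((p.1 : ℂ), (p.2 : ℂ))) ∈ B ∧
    (∀ p : ℝ × ℝ,
      ‖fs p + ((p.1 : ℂ) ^ 2 - (p.2 : ℂ) ^ 2) ^ 2 * h ((p.1 : ℂ), (p.2 : ℂ))‖ ≤ 1) ∧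
    T (fun p : ℝ × ℝ => fs p + ((p.1 : ℂ) ^ 2 - (p.2 : ℂ) ^ 2) ^ 2 * h ((p.1 : ℂ), (p.2 : ℂ))) 0
      = ((2 / Real.pi : ℝ) : ℂ) := by
  have hle : ∀ p : ℝ × ℝ,
      ‖fs p + ((p.1 : ℂ) ^ 2 - (p.2 : ℂ) ^ 2) ^ 2 * h ((p.1 : ℂ), (p.2 : ℂ))‖ ≤ 1 := by
    rintro ⟨x, y⟩
    dsimp only
    refine (norm_add_le _ _).trans ?_
    rcases eq_or_ne (x ^ 2 + y ^ 2) 0 with h0 | h0
    · have hx : x = 0 := by nlinarith [sq_nonneg x, sq_nonneg y]
      have hy : y = 0 := by nlinarith [sq_nonneg x, sq_nonneg y]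
      subst hx hy
      have : fs (0, 0) = 0 := by simp [fs]
      rw [this]; simp
    · have hr : 0 < x ^ 2 + y ^ 2 := lt_of_le_of_ne (by positivity) (Ne.symm h0)
      have h1 : ‖fs (x, y)‖ ≤ |2 * x * y| / (x ^ 2 + y ^ 2) := by
        unfold fs
        dsimp only
        rw [Complex.norm_real, Real.norm_eq_abs, abs_neg, abs_mul, abs_div, abs_of_pos hr]
        have := Real.abs_cos_le_one √(x ^ 2 + y ^ 2 + a ^ 2)
        have h3 : 0 ≤ |2 * x * y| / (x ^ 2 + y ^ 2) := by positivity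
        nlinarith
      have h2 : ‖((x : ℂ) ^ 2 - (y : ℂ) ^ 2) ^ 2 * h ((x : ℂ), (y : ℂ))‖
          ≤ (x ^ 2 - y ^ 2) ^ 2 / (2 * (x ^ 2 + y ^ 2) ^ 2) := by
        rw [norm_mul]
        have e : ((x : ℂ) ^ 2 - (y : ℂ) ^ 2) ^ 2 = (((x ^ 2 - y ^ 2) ^ 2 : ℝ) : ℂ) := by push_cast; ring
        rw [e, Complex.norm_real, Real.norm_eq_abs, abs_of_nonneg (sq_nonneg _)]
        have h3 : ‖h ((x : ℂ), (y : ℂ))‖ ≤ 1 / 2 / (x ^ 2 + y ^ 2) ^ 2 := by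
          rw [le_div_iff₀ (by positivity), mul_comm]; exact hb x y
        calc (x ^ 2 - y ^ 2) ^ 2 * ‖h ((x : ℂ), (y : ℂ))‖
            ≤ (x ^ 2 - y ^ 2) ^ 2 * (1 / 2 / (x ^ 2 + y ^ 2) ^ 2) := by gcongr
          _ = _ := by field_simp
      refine (add_le_add h1 h2).trans ?_
      set A := |2 * x * y| / (x ^ 2 + y ^ 2) with hA
      have hA2 : (x ^ 2 - y ^ 2) ^ 2 / (2 * (x ^ 2 + y ^ 2) ^ 2) = (1 - A ^ 2) / 2 := by
        rw [hA, div_pow, sq_abs]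
        field_simp
        ring
      rw [hA2]
      nlinarith [sq_nonneg (A - 1)]
  have hmem : (fun p : ℝ × ℝ => fs p + ((p.1 : ℂ) ^ 2 - (p.2 : ℂ) ^ 2) ^ 2
      * h ((p.1 : ℂ), (p.2 : ℂ))) ∈ B := by
    refine ⟨⟨1, hle⟩, fun z => Fs z + ((z.1 ^ 2 + (-1) * z.2 ^ 2) ^ 2) * h z, ?_, ?_⟩
    · apply Fs_spec.add
      refine Sub.mul_spec ?_ hh
      exact ((Sub.fst.pow 2).add ((Sub.const _).mul (Sub.snd.pow 2))).pow 2
    · intro x y
      dsimp only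
      rw [fs_eq]
      ring
  refine ⟨hmem, hle, (extremal_iff hmem hle).1.2 ?_⟩
  intro k hk
  have ep : ∀ t : ℝ, (((pu t).1 : ℂ) ^ 2 - ((pu t).2 : ℂ) ^ 2) ^ 2 = 0 := fun t => by
    unfold pu; dsimp only; rw [sub_self]; norm_num
  have em : ∀ t : ℝ, (((pv t).1 : ℂ) ^ 2 - ((pv t).2 : ℂ) ^ 2) ^ 2 = 0 := fun t => by
    unfold pv; dsimp only; push_cast; ring
  obtain ⟨v1, v2, v3, v4⟩ := values_fs k hk
  refine ⟨?_, ?_, ?_, ?_⟩
  · dsimp only; rw [ep, zero_mul, add_zero, v1]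
  · dsimp only; rw [ep, zero_mul, add_zero, v2]
  · dsimp only; rw [em, zero_mul, add_zero, v3]
  · dsimp only; rw [em, zero_mul, add_zero, v4]

end Pool.Agent.K7.H38.MD
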