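import Pool.Agent.K7.H38.MD.Fam

set_option autoImplicit false

open Complex Filter Topology Metric Set
open scoped ContDiff
open Pool.Agent.Helper797.Bs

namespace Pool.Agent.K7.H38.MD

/-- the set of the normal extremals -/
def NE : Set (ℝ × ℝ → ℂ) := {f | f ∈ B ∧ (∀ p, ‖f p‖ ≤ 1) ∧ T f 0 = ((2 / Real.pi : ℝ) : ℂ)}

/-- a fast decreasing function -/
noncomputable def h0 (N : ℕ) (z : ℂ × ℂ) : ℂ :=
  (snc (z.1 / ((2 * N : ℝ) : ℂ)) * snc (z.2 / ((2 * N : ℝ) : ℂ))) ^ N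

lemma snc_real_le (x : ℝ) : ‖snc (x : ℂ)‖ ≤ 1 ∧ |x| * ‖snc (x : ℂ)‖ ≤ 1 := by
  rcases eq_or_ne x 0 with rfl | hx
  · rw [Complex.ofReal_zero, snc_zero]; simp
  · have hc : (x : ℂ) ≠ 0 := by exact_mod_cast hx
    have hx0 : 0 < |x| := abs_pos.2 hx
    rw [snc_ne hc, ← Complex.ofReal_sin, ← Complex.ofReal_div, Complex.norm_real, Real.norm_eq_abs,
      abs_div]
    constructor
    · exact div_le_one_of_le₀ Real.abs_sin_le_abs (abs_nonneg _)
    · rw [mul_div_cancel₀ _ hx0.ne']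
      exact Real.abs_sin_le_one x

lemma pow_bound {q : ℝ} (hq : 0 < q) {m N : ℕ} (hm : m ≤ N) (x : ℝ) :
    |x| ^ m * ‖snc ((x : ℂ) / (q : ℂ))‖ ^ N ≤ q ^ m := by
  rw [← Complex.ofReal_div]
  obtain ⟨h1, h2⟩ := snc_real_le (x / q)
  set s := ‖snc ((x / q : ℝ) : ℂ)‖ with hs
  have hs0 : 0 ≤ s := norm_nonneg _
  rw [abs_div, abs_of_pos hq] at h2
  have h3 : |x| * s ≤ q := by
    rw [div_mul_eq_mul_div, div_le_iff₀ hq, one_mul] at h2; exact h2
  calc |x| ^ m * s ^ N = (|x| * s) ^ m * s ^ (N - m) := by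
        rw [mul_pow, mul_assoc, ← pow_add, Nat.add_sub_cancel' hm]
    _ ≤ q ^ m * 1 ^ (N - m) := by gcongr
    _ = q ^ m := by rw [one_pow, mul_one]

lemma h0_bound {N : ℕ} (hN : 0 < N) {j : ℕ} (hj : j + 4 ≤ N) (x y : ℝ) :
    (x ^ 2 + y ^ 2) ^ 2 * ‖(x : ℂ) ^ j * h0 N ((x : ℂ), (y : ℂ))‖ ≤ 4 * (2 * N : ℝ) ^ (j + 4) := by
  have hq : (0:ℝ) < 2 * N := by positivity
  unfold h0
  dsimp only
  rw [norm_mul, norm_pow, norm_pow, norm_mul, Complex.norm_real, Real.norm_eq_abs]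
  set s := ‖snc ((x : ℂ) / ((2 * N : ℝ) : ℂ))‖ with hs
  set t := ‖snc ((y : ℂ) / ((2 * N : ℝ) : ℂ))‖ with ht
  have a1 := pow_bound hq hj x
  have a2 : |x| ^ j * s ^ N ≤ (2 * N : ℝ) ^ j := pow_bound hq (by omega) x
  have a3 : |y| ^ 4 * t ^ N ≤ (2 * N : ℝ) ^ 4 := pow_bound hq (by omega) y
  have a4 : t ^ N ≤ 1 := by
    have := pow_bound hq (m := 0) (N := N) (by omega) y
    rw [pow_zero, one_mul, pow_zero] at this
    exact this
  rw [← hs] at a1
  have hs0 : 0 ≤ s := norm_nonneg _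
  have ht0 : 0 ≤ t := norm_nonneg _
  have e : (x ^ 2 + y ^ 2) ^ 2 ≤ 2 * (|x| ^ 4 + |y| ^ 4) := by
    have e1 : |x| ^ 4 = x ^ 4 := by rw [show 4 = 2 * 2 by norm_num, pow_mul, sq_abs, ← pow_mul]
    have e2 : |y| ^ 4 = y ^ 4 := by rw [show 4 = 2 * 2 by norm_num, pow_mul, sq_abs, ← pow_mul]
    rw [e1, e2]
    nlinarith [sq_nonneg (x ^ 2 - y ^ 2)]
  rw [mul_pow]
  have hnn : 0 ≤ |x| ^ j * (s ^ N * t ^ N) := by positivity
  calc (x ^ 2 + y ^ 2) ^ 2 * (|x| ^ j * (s ^ N * t ^ N))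
      ≤ 2 * (|x| ^ 4 + |y| ^ 4) * (|x| ^ j * (s ^ N * t ^ N)) := by gcongr
    _ = 2 * ((|x| ^ (j + 4) * s ^ N) * t ^ N + (|x| ^ j * s ^ N) * (|y| ^ 4 * t ^ N)) := by
        rw [pow_add]; ring
    _ ≤ 2 * ((2 * N : ℝ) ^ (j + 4) * 1 + (2 * N : ℝ) ^ j * (2 * N : ℝ) ^ 4) := by gcongr
    _ = 4 * (2 * N : ℝ) ^ (j + 4) := by rw [← pow_add]; ring

lemma h0_spec {N : ℕ} (hN : 0 < N) : SpecDisc (h0 N) := by
  have hq : (0:ℝ) < 2 * N := by positivity
  obtain ⟨K, hK, hb⟩ := snc_bound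
  apply spec_of_bound (K := (K * K) ^ N)
  · intro z _
    have h1 : AnalyticAt ℂ (fun z : ℂ × ℂ => snc (z.1 / ((2 * N : ℝ) : ℂ))) z := by
      have h2 : AnalyticAt ℂ (fun z : ℂ × ℂ => z.1 / ((2 * N : ℝ) : ℂ)) z := by
        simp_rw [div_eq_mul_inv]
        exact analyticAt_fst.mul analyticAt_const
      exact AnalyticAt.fun_comp (f := fun z : ℂ × ℂ => z.1 / ((2 * N : ℝ) : ℂ))
        (snc_diff.analyticAt _) h2
    have h1' : AnalyticAt ℂ (fun z : ℂ × ℂ => snc (z.2 / ((2 * N : ℝ) : ℂ))) z := by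
      have h2 : AnalyticAt ℂ (fun z : ℂ × ℂ => z.2 / ((2 * N : ℝ) : ℂ)) z := by
        simp_rw [div_eq_mul_inv]
        exact analyticAt_snd.mul analyticAt_const
      exact AnalyticAt.fun_comp (f := fun z : ℂ × ℂ => z.2 / ((2 * N : ℝ) : ℂ))
        (snc_diff.analyticAt _) h2
    exact (h1.mul h1').pow N
  · positivity
  · intro z
    unfold h0
    rw [norm_pow, norm_mul]
    have b1 := hb (z.1 / ((2 * N : ℝ) : ℂ))
    have b2 := hb (z.2 / ((2 * N : ℝ) : ℂ))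
    rw [Complex.div_ofReal_im, abs_div, abs_of_pos hq] at b1 b2
    have c1 : |z.1.im| ≤ √(z.1.im ^ 2 + z.2.im ^ 2) :=
      Real.abs_le_sqrt (by nlinarith [sq_nonneg z.2.im])
    have c2 : |z.2.im| ≤ √(z.1.im ^ 2 + z.2.im ^ 2) :=
      Real.abs_le_sqrt (by nlinarith [sq_nonneg z.1.im])
    have hNr : (0:ℝ) < N := by exact_mod_cast hN
    calc (‖snc (z.1 / ((2 * N : ℝ) : ℂ))‖ * ‖snc (z.2 / ((2 * N : ℝ) : ℂ))‖) ^ N
        ≤ ((K * Real.exp (|z.1.im| / (2 * N))) * (K * Real.exp (|z.2.im| / (2 * N)))) ^ N := by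
          gcongr
      _ = (K * K) ^ N * Real.exp ((|z.1.im| + |z.2.im|) / 2) := by
          have : (K * Real.exp (|z.1.im| / (2 * N))) * (K * Real.exp (|z.2.im| / (2 * N)))
            = (K * K) * Real.exp ((|z.1.im| + |z.2.im|) / (2 * N)) := by
            rw [add_div, Real.exp_add]; ring
          rw [this, mul_pow, ← Real.exp_nat_mul]
          congr 2
          field_simp
      _ ≤ _ := by
          gcongr
          linarith

/-- the functions `x₁ʲ (x₁² - x₂²)² h₀` -/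
noncomputable def gj (N j : ℕ) (p : ℝ × ℝ) : ℂ :=
  (p.1 : ℂ) ^ j * (((p.1 : ℂ) ^ 2 - (p.2 : ℂ) ^ 2) ^ 2 * h0 N ((p.1 : ℂ), (p.2 : ℂ)))

lemma gj_mem {N : ℕ} {j : ℕ} (hj : j + 4 ≤ N) : gj N j ∈ Submodule.span ℂ NE := by
  have hN : 0 < N := by omega
  have hq : (0:ℝ) < 2 * N := by positivity
  set c : ℝ := 1 / (8 * (2 * N : ℝ) ^ (j + 4)) with hc
  have hc0 : 0 < c := by positivity
  have hsp : SpecDisc (fun z : ℂ × ℂ => ((c : ℂ) * z.1 ^ j) * h0 N z) :=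
    Sub.mul_spec ((Sub.const _).mul (Sub.fst.pow j)) (h0_spec hN)
  have h1 := famH_extremal hsp (fun x y => by
    dsimp only
    rw [mul_assoc, norm_mul, Complex.norm_real, Real.norm_eq_abs, abs_of_pos hc0]
    have := h0_bound hN hj x y
    calc (x ^ 2 + y ^ 2) ^ 2 * (c * ‖(x : ℂ) ^ j * h0 N ((x : ℂ), (y : ℂ))‖)
        = c * ((x ^ 2 + y ^ 2) ^ 2 * ‖(x : ℂ) ^ j * h0 N ((x : ℂ), (y : ℂ))‖) := by ring
      _ ≤ c * (4 * (2 * N : ℝ) ^ (j + 4)) := by gcongr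
      _ = 1 / 2 := by rw [hc]; field_simp; norm_num)
  have h2 : fs ∈ NE := ⟨fs_mem, fs_le, T_fs⟩
  have h3 := Submodule.subset_span (R := ℂ) (s := NE) h1
  have h4 := Submodule.subset_span (R := ℂ) (s := NE) h2
  have h5 := Submodule.smul_mem _ ((1 / c : ℝ) : ℂ) (Submodule.sub_mem _ h3 h4)
  convert h5 using 1
  funext p
  have hcc : (c : ℂ) ≠ 0 := by exact_mod_cast hc0.ne'
  simp only [gj, Pi.smul_apply, Pi.sub_apply, smul_eq_mul]
  push_cast
  field_simp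
  ring

lemma h0_ne {N : ℕ} (hN : 0 < N) {x : ℝ} (h0' : 0 < x) (h1 : x < 1) :
    h0 N ((x : ℂ), ((0 : ℝ) : ℂ)) ≠ 0 := by
  have hNr : (1:ℝ) ≤ N := by exact_mod_cast hN
  have hq : (0:ℝ) < 2 * N := by positivity
  unfold h0
  dsimp only
  rw [Complex.ofReal_zero, zero_div, snc_zero, mul_one, ← Complex.ofReal_div]
  apply pow_ne_zero
  have hx : 0 < x / (2 * N) := by positivity
  have hc : ((x / (2 * N) : ℝ) : ℂ) ≠ 0 := by exact_mod_cast hx.ne'
  rw [snc_ne hc]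
  apply div_ne_zero _ hc
  rw [← Complex.ofReal_sin]
  have hlt : x / (2 * N) < Real.pi := by
    rw [div_lt_iff₀ hq]
    have := Real.pi_gt_three
    nlinarith
  exact_mod_cast (Real.sin_pos_of_pos_of_lt_pi hx hlt).ne'

/-- the normal extremals span an infinite-dimensional space -/
theorem not_fin : ¬ FiniteDimensional ℂ (Submodule.span ℂ NE) := by
  intro hfd
  set n := Module.finrank ℂ (Submodule.span ℂ NE) with hn
  set N := n + 4 with hN
  let v : Fin (n + 1) → Submodule.span ℂ NE := fun j => ⟨gj N j, gj_mem (by omega)⟩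
  have hli : LinearIndependent ℂ v := by
    rw [Fintype.linearIndependent_iff]
    intro g hg
    have h1 : ∀ p : ℝ × ℝ, ∑ j : Fin (n + 1), g j * gj N j p = 0 := by
      intro p
      have := congrArg (fun w : Submodule.span ℂ NE => (w : ℝ × ℝ → ℂ) p) hg
      simpa [v, Finset.sum_apply] using this
    -- the polynomial `∑ g_j X^j`
    set P : Polynomial ℂ := ∑ j : Fin (n + 1), Polynomial.C (g j) * Polynomial.X ^ (j : ℕ) with hP
    have hroot : ∀ x : ℝ, 0 < x → x < 1 → P.IsRoot (x : ℂ) := by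
      intro x h0' h1'
      have h2 := h1 (x, 0)
      have h3 : ∀ j : Fin (n + 1), g j * gj N j (x, 0)
          = (g j * (x : ℂ) ^ (j : ℕ)) * ((x : ℂ) ^ 4 * h0 N ((x : ℂ), ((0 : ℝ) : ℂ))) := by
        intro j
        unfold gj
        dsimp only
        rw [Complex.ofReal_zero]
        ring
      simp_rw [h3] at h2
      rw [← Finset.sum_mul] at h2
      have h4 : (x : ℂ) ^ 4 * h0 N ((x : ℂ), ((0 : ℝ) : ℂ)) ≠ 0 := by
        apply mul_ne_zero
        · apply pow_ne_zero; exact_mod_cast h0'.ne'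
        · exact h0_ne (by omega) h0' h1'
      have h5 := (mul_eq_zero.1 h2).resolve_right h4
      rw [Polynomial.IsRoot.def, hP, Polynomial.eval_finsetSum]
      simpa using h5
    have hP0 : P = 0 := by
      apply Polynomial.eq_zero_of_infinite_isRoot
      have hinf : (Complex.ofReal '' Ioo (0:ℝ) 1).Infinite :=
        (Ioo_infinite zero_lt_one).image Complex.ofReal_injective.injOn
      apply hinf.mono
      rintro _ ⟨x, hx, rfl⟩
      exact hroot x hx.1 hx.2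
    intro j
    have h6 : P.coeff j = g j := by
      rw [hP, Polynomial.finsetSum_coeff]
      simp_rw [Polynomial.coeff_C_mul_X_pow]
      rw [Finset.sum_eq_single j]
      · simp
      · intro b _ hb
        rw [if_neg]
        intro h
        exact hb (Fin.ext h.symm)
      · intro h; exact absurd (Finset.mem_univ j) h
    rw [← h6, hP0, Polynomial.coeff_zero]
  have := hli.fintype_card_le_finrank
  rw [Fintype.card_fin, ← hn] at this
  omega

end Pool.Agent.K7.H38.MD
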