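import Pool.Agent.K7.H38.MD.Lower

set_option autoImplicit false

open Complex Filter Topology Metric Set
open scoped ContDiff
open Pool.Agent.Helper797.Bs

namespace Pool.Agent.K7.H38.MD

/-- the nodes `t_k = π √(k² - 1/4)` -/
noncomputable def node (k : ℕ) : ℝ := Real.pi * √((k : ℝ) ^ 2 - 1 / 4)

lemma node_sq {k : ℕ} (hk : 1 ≤ k) : node k ^ 2 = ((k : ℝ) * Real.pi) ^ 2 - a ^ 2 := by
  have h1 : (1 : ℝ) ≤ k := by exact_mod_cast hk
  unfold node a
  rw [mul_pow, Real.sq_sqrt (by nlinarith)]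
  ring

lemma node_pos {k : ℕ} (hk : 1 ≤ k) : 0 < node k := by
  have h1 : (1 : ℝ) ≤ k := by exact_mod_cast hk
  unfold node
  have : 0 < √((k : ℝ) ^ 2 - 1 / 4) := Real.sqrt_pos.2 (by nlinarith)
  positivity

/-- the functional `U` on functions of `z²` -/
noncomputable def V (G : ℂ → ℂ) : ℂ := 2 * deriv G 0 + ((4 / Real.pi ^ 2 : ℝ) : ℂ) * G 0

lemma U_sq {G : ℂ → ℂ} (hG : Differentiable ℂ G) : U (fun z => G (z ^ 2)) = V G := by
  unfold U V
  have hdF : deriv (fun z => G (z ^ 2)) = fun z => 2 * z * deriv G (z ^ 2) := by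
    ext z
    have h1 : HasDerivAt (fun s : ℂ => s ^ 2) (2 * z) z := by
      simpa using hasDerivAt_pow 2 z
    have h2 : HasDerivAt G (deriv G (z ^ 2)) (z ^ 2) := (hG _).hasDerivAt
    have h3 := h2.comp z h1
    have h4 : (G ∘ fun s : ℂ => s ^ 2) = fun z => G (z ^ 2) := rfl
    rw [h4] at h3
    rw [h3.deriv]; ring
  have h5 : deriv (deriv (fun z => G (z ^ 2))) 0 = 2 * deriv G 0 := by
    rw [hdF]
    have hGd2 : Differentiable ℂ (deriv G) := hG.deriv
    have h2 : DifferentiableAt ℂ (fun z : ℂ => 2 * deriv G (z ^ 2)) 0 := by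
      have : Differentiable ℂ (fun z : ℂ => deriv G (z ^ 2)) := hGd2.comp (by fun_prop)
      exact (this 0).const_mul 2
    have h3 := hasDerivAt_mul_zero h2
    have e : (fun y : ℂ => y * (2 * deriv G (y ^ 2))) = fun z => 2 * z * deriv G (z ^ 2) := by
      funext y; ring
    rw [e] at h3
    rw [h3.deriv]
    norm_num
  rw [h5]
  norm_num

theorem V_le {G : ℂ → ℂ} (hGd : Differentiable ℂ G) {C M : ℝ} (hC : 0 ≤ C)
    (hb : ∀ z, ‖G (z ^ 2)‖ ≤ C * Real.exp |z.im|) (hM : 0 ≤ M)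
    (hk : ∀ k : ℕ, 1 ≤ k → ‖G ((node k : ℂ) ^ 2)‖ ≤ M) : ‖V G‖ ≤ 2 / Real.pi * M := by
  have ha0 : 0 < a := a_pos
  have ha1 : a < Real.pi := by unfold a; linarith [Real.pi_pos]
  set g : ℂ → ℂ := fun s => G (s ^ 2 - (a:ℂ) ^ 2) with hg
  have hgd : Differentiable ℂ g := hGd.comp (by fun_prop)
  have hgev : ∀ s, g (-s) = g s := by intro s; simp only [hg, neg_sq]
  have hgC : ∀ s, ‖g s‖ ≤ (C * Real.exp |a|) * Real.exp |s.im| := by
    intro s
    have h1 : g s = G ((Complex.sqrt (s ^ 2 - (a:ℂ) ^ 2)) ^ 2) := by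
      simp only [hg, sq_sqrt]
    rw [h1]
    refine (hb _).trans ?_
    rw [mul_assoc, ← Real.exp_add]
    apply mul_le_mul_of_nonneg_left _ hC
    apply Real.exp_le_exp.mpr
    have := im_le_of_sub (sq_sqrt (s ^ 2 - (a:ℂ) ^ 2))
    linarith
  have hgM : ∀ k : ℤ, k ≠ 0 → ‖g ((k:ℂ) * Real.pi)‖ ≤ M := by
    intro k hk0
    have h1 : 1 ≤ k.natAbs := Nat.one_le_iff_ne_zero.2 (Int.natAbs_ne_zero.2 hk0)
    have h2 := hk _ h1
    have h3 : ((node k.natAbs : ℂ)) ^ 2 = ((k:ℂ) * Real.pi) ^ 2 - (a:ℂ) ^ 2 := by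
      rw [← Complex.ofReal_pow, node_sq h1]
      have h4 : ((k.natAbs : ℝ)) ^ 2 = (k : ℝ) ^ 2 := by
        rw [Nat.cast_natAbs, Int.cast_abs, sq_abs]
      rw [mul_pow, h4]
      push_cast
      ring
    rw [h3] at h2
    exact h2
  have hga : HasDerivAt g (2 * a * deriv G 0) (a:ℂ) := by
    have h1 : HasDerivAt (fun s : ℂ => s ^ 2 - (a:ℂ) ^ 2) (2 * (a:ℂ)) (a:ℂ) := by
      have := ((hasDerivAt_id (a:ℂ)).pow 2).sub_const ((a:ℂ) ^ 2)
      simpa using this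
    have h2 : HasDerivAt G (deriv G 0) ((a:ℂ) ^ 2 - (a:ℂ) ^ 2) := by
      rw [sub_self]; exact (hGd 0).hasDerivAt
    have h3 := h2.comp (a:ℂ) h1
    rw [mul_comm] at h3
    exact h3
  have hga0 : g a = G 0 := by
    simp only [hg]
    rw [sub_self]
  have hs := sin_ne ha0 ha1
  have hH := hasDeriv_hfun hga hs
  have hH0 := hasDeriv_hfun (Complex.hasDerivAt_cos (a:ℂ)) hs
  have hmain := deriv_uineq hgd hgev (by positivity) hgC hM hgM ha0 ha1 hH hH0
  rw [hga0, cos_a, sin_a] at hmain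
  have hac : (a:ℂ) ≠ 0 := by exact_mod_cast ha0.ne'
  have hpi : (Real.pi : ℂ) ≠ 0 := by exact_mod_cast Real.pi_ne_zero
  have e1 : V G = (1 / (a:ℂ) ^ 2) * (((G 0 + a * (2 * a * deriv G 0)) * 1
        - a * G 0 * 0) / 1 ^ 2) := by
    unfold V a
    push_cast
    field_simp
    ring
  have e2 : ‖((0 + (a:ℂ) * -1) * 1 - a * 0 * 0) / 1 ^ 2‖ = a := by
    have : ((0 + (a:ℂ) * -1) * 1 - a * 0 * 0) / 1 ^ 2 = ((-a : ℝ) : ℂ) := by push_cast; ring
    rw [this, Complex.norm_real, Real.norm_eq_abs, abs_neg, abs_of_pos ha0]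
  rw [e2] at hmain
  rw [e1, norm_mul]
  have e3 : ‖(1 / (a:ℂ) ^ 2)‖ = 1 / a ^ 2 := by
    rw [norm_div, norm_one, ← Complex.ofReal_pow, Complex.norm_real, Real.norm_eq_abs,
      abs_of_pos (by positivity)]
  rw [e3]
  calc 1 / a ^ 2 * ‖((G 0 + a * (2 * a * deriv G 0)) * 1 - a * G 0 * 0) / 1 ^ 2‖
      ≤ 1 / a ^ 2 * (M * a) := by gcongr
    _ = 2 / Real.pi * M := by
      unfold a
      have := Real.pi_ne_zero
      field_simp

/-- functions which vanish at all the nodes -/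
theorem eq_sw {G : ℂ → ℂ} (hGd : Differentiable ℂ G) {C : ℝ} (hC : 0 ≤ C)
    (hb : ∀ z, ‖G (z ^ 2)‖ ≤ C * Real.exp |z.im|)
    (hk : ∀ k : ℕ, 1 ≤ k → G ((node k : ℂ) ^ 2) = 0) : ∃ A : ℂ, ∀ w, G w = A * sw w := by
  have ha0 : 0 < a := a_pos
  have ha1 : a < Real.pi := by unfold a; linarith [Real.pi_pos]
  set g : ℂ → ℂ := fun s => G (s ^ 2 - (a:ℂ) ^ 2) with hg
  have hgd : Differentiable ℂ g := hGd.comp (by fun_prop)
  have hgev : ∀ s, g (-s) = g s := by intro s; simp only [hg, neg_sq]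
  have hgC : ∀ s, ‖g s‖ ≤ (C * Real.exp |a|) * Real.exp |s.im| := by
    intro s
    have h1 : g s = G ((Complex.sqrt (s ^ 2 - (a:ℂ) ^ 2)) ^ 2) := by
      simp only [hg, sq_sqrt]
    rw [h1]
    refine (hb _).trans ?_
    rw [mul_assoc, ← Real.exp_add]
    apply mul_le_mul_of_nonneg_left _ hC
    apply Real.exp_le_exp.mpr
    have := im_le_of_sub (sq_sqrt (s ^ 2 - (a:ℂ) ^ 2))
    linarith
  have hgM : ∀ k : ℤ, k ≠ 0 → ‖g ((k:ℂ) * Real.pi)‖ ≤ 0 := by
    intro k hk0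
    have h1 : 1 ≤ k.natAbs := Nat.one_le_iff_ne_zero.2 (Int.natAbs_ne_zero.2 hk0)
    have h2 := hk _ h1
    have h3 : ((node k.natAbs : ℂ)) ^ 2 = ((k:ℂ) * Real.pi) ^ 2 - (a:ℂ) ^ 2 := by
      rw [← Complex.ofReal_pow, node_sq h1]
      have h4 : ((k.natAbs : ℝ)) ^ 2 = (k : ℝ) ^ 2 := by
        rw [Nat.cast_natAbs, Int.cast_abs, sq_abs]
      rw [mul_pow, h4]
      push_cast
      ring
    rw [h3] at h2
    simp only [hg]
    rw [h2, norm_zero]
  -- the quotient `s g(s) / sin s` is constant on `(0, π)`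
  have hconst : ∀ z : ℝ, 0 < z → z < Real.pi → g z = hfun g a * snc z := by
    intro z hz0 hz1
    have hzc : (z:ℂ) ≠ 0 := by exact_mod_cast hz0.ne'
    have hsz := sin_ne hz0 hz1
    have h1 : hfun g z = hfun g a := by
      rcases eq_or_ne z a with rfl | hza
      · rfl
      · have h := uineq hgd hgev (by positivity) hgC le_rfl hgM hz0 hz1 ha0 ha1 hza
        rw [zero_mul] at h
        exact sub_eq_zero.1 (norm_le_zero_iff.1 h)
    rw [← h1, snc_ne hzc]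
    unfold hfun
    field_simp
  -- identity theorem
  have hall : ∀ s, g s = hfun g a * snc s := by
    have hd : Differentiable ℂ (fun s => hfun g a * snc s) := snc_diff.const_mul _
    have h1 : AnalyticOnNhd ℂ g univ := fun z _ => hgd.analyticAt z
    have h2 : AnalyticOnNhd ℂ (fun s => hfun g a * snc s) univ := fun z _ => hd.analyticAt z
    have h3 : ∃ᶠ z in 𝓝[≠] (a:ℂ), g z = hfun g a * snc z := by
      have ht : Tendsto (fun x : ℝ => (x : ℂ)) (𝓝[≠] a) (𝓝[≠] (a:ℂ)) := by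
        apply tendsto_nhdsWithin_of_tendsto_nhds_of_eventually_within
        · exact (Complex.continuous_ofReal.tendsto a).mono_left nhdsWithin_le_nhds
        · filter_upwards [self_mem_nhdsWithin] with x hx
          simpa using hx
      apply ht.frequently
      apply Eventually.frequently
      have : Ioo (0:ℝ) Real.pi ∈ 𝓝[≠] a := nhdsWithin_le_nhds (Ioo_mem_nhds ha0 ha1)
      filter_upwards [this] with x hx
      exact hconst x hx.1 hx.2
    have := h1.eq_of_frequently_eq h2 h3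
    intro s
    exact congrFun this s
  refine ⟨hfun g a, fun w => ?_⟩
  have h1 := hall (Complex.sqrt (w + (a:ℂ) ^ 2))
  have h2 : g (Complex.sqrt (w + (a:ℂ) ^ 2)) = G w := by
    simp only [hg, sq_sqrt, add_sub_cancel_right]
  rw [h2] at h1
  rw [h1, sw_eq (sq_sqrt _)]

end Pool.Agent.K7.H38.MD
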