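import Pool.Agent.K7.H38.MD.Upper

set_option autoImplicit false

open Complex Filter Topology Metric Set
open scoped ContDiff
open Pool.Agent.Helper797.Bs

namespace Pool.Agent.K7.H38.MD

/-- `a = π / 2` -/
noncomputable def a : ℝ := Real.pi / 2

lemma a_pos : 0 < a := by unfold a; positivity

/-- `w ↦ cos √(w + a²)` -/
noncomputable def cw (w : ℂ) : ℂ := ev Complex.cos (w + (a : ℂ) ^ 2)

/-- `w ↦ sin √(w + a²) / √(w + a²)` -/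
noncomputable def sw (w : ℂ) : ℂ := ev snc (w + (a : ℂ) ^ 2)

lemma cw_diff : Differentiable ℂ cw := evcos_diff.comp (by fun_prop)

lemma sw_diff : Differentiable ℂ sw := evsnc_diff.comp (by fun_prop)

lemma cos_a : Complex.cos (a : ℂ) = 0 := by
  unfold a
  push_cast
  exact Complex.cos_pi_div_two

lemma sin_a : Complex.sin (a : ℂ) = 1 := by
  unfold a
  push_cast
  exact Complex.sin_pi_div_two

lemma cw_eq {w s : ℂ} (h : s ^ 2 = w + (a : ℂ) ^ 2) : cw w = Complex.cos s :=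
  ev_eq (fun s => Complex.cos_neg s) h

lemma sw_eq {w s : ℂ} (h : s ^ 2 = w + (a : ℂ) ^ 2) : sw w = snc s :=
  ev_eq snc_neg h

lemma cw_zero : cw 0 = 0 := by
  rw [cw_eq (s := (a : ℂ)) (by ring), cos_a]

/-- `H(w) = cos √(w + a²) / w` -/
noncomputable def H : ℂ → ℂ := dslope cw 0

lemma H_diff : Differentiable ℂ H := by
  have h : DifferentiableOn ℂ H univ :=
    (Complex.differentiableOn_dslope (by simp)).2 cw_diff.differentiableOn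
  exact fun z => (h z (mem_univ z)).differentiableAt (by simp)

lemma H_ne {w : ℂ} (hw : w ≠ 0) : H w = cw w / w := by
  unfold H
  rw [dslope_of_ne _ hw, slope_def_field, cw_zero]
  simp

lemma H_mul (w : ℂ) : w * H w = cw w := by
  rcases eq_or_ne w 0 with rfl | hw
  · rw [cw_zero, zero_mul]
  · rw [H_ne hw]; field_simp

lemma H_zero : H 0 = -(1 / (2 * (a : ℂ))) := by
  unfold H
  rw [dslope_same]
  have ha : (a : ℂ) ≠ 0 := by exact_mod_cast a_pos.ne'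
  have h1 : deriv (ev Complex.cos) ((a : ℂ) ^ 2) = (-Complex.sin (a : ℂ)) / (2 * (a : ℂ)) :=
    ev_deriv Complex.differentiable_cos (fun s => Complex.cos_neg s) ha (Complex.hasDerivAt_cos _)
  have h2 : HasDerivAt (ev Complex.cos) (deriv (ev Complex.cos) ((a : ℂ) ^ 2)) (0 + (a : ℂ) ^ 2) := by
    rw [zero_add]; exact (evcos_diff _).hasDerivAt
  have h3 : HasDerivAt cw (deriv (ev Complex.cos) ((a : ℂ) ^ 2)) 0 := h2.comp_add_const 0 _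
  rw [h3.deriv, h1, sin_a]
  ring

/-- imaginary part of `√(z₁² + z₂² + a²)` -/
lemma im_bound {z1 z2 s : ℂ} {b : ℝ} (h : s ^ 2 = z1 ^ 2 + z2 ^ 2 + (b : ℂ) ^ 2) :
    |s.im| ≤ √(z1.im ^ 2 + z2.im ^ 2) := by
  apply Real.abs_le_sqrt
  have h0 := two_im_sq s
  have h1 := two_im_sq z1
  have h2 := two_im_sq z2
  rw [h] at h0
  have h3 : ‖z1 ^ 2 + z2 ^ 2 + (b : ℂ) ^ 2‖ ≤ ‖z1 ^ 2‖ + ‖z2 ^ 2‖ + b ^ 2 := by
    refine (norm_add_le _ _).trans ?_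
    have : ‖(b : ℂ) ^ 2‖ = b ^ 2 := by
      rw [← Complex.ofReal_pow, Complex.norm_real, Real.norm_eq_abs, abs_of_nonneg (sq_nonneg b)]
    rw [this]
    gcongr
    exact norm_add_le _ _
  have h4 : (z1 ^ 2 + z2 ^ 2 + (b : ℂ) ^ 2).re = (z1 ^ 2).re + (z2 ^ 2).re + b ^ 2 := by
    rw [Complex.add_re, Complex.add_re, ← Complex.ofReal_pow, Complex.ofReal_re]
  rw [h4] at h0
  linarith

/-- growth of `Φ(z₁² + z₂² + b²)`, where `Φ(s²)` is bounded by `exp |Im s|` -/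
lemma ev_growth {f : ℂ → ℂ} {K : ℝ} (hf : ∀ z, ‖f z‖ ≤ K * Real.exp |z.im|) (hK : 0 ≤ K) (b : ℝ)
    (z1 z2 : ℂ) : ‖ev f (z1 ^ 2 + z2 ^ 2 + (b : ℂ) ^ 2)‖ ≤ K * Real.exp √(z1.im ^ 2 + z2.im ^ 2) := by
  have h1 : ev f (z1 ^ 2 + z2 ^ 2 + (b : ℂ) ^ 2) = f (Complex.sqrt (z1 ^ 2 + z2 ^ 2 + (b : ℂ) ^ 2)) :=
    rfl
  rw [h1]
  refine (hf _).trans ?_
  gcongr
  exact im_bound (sq_sqrt _)

lemma cw_growth (z1 z2 : ℂ) : ‖cw (z1 ^ 2 + z2 ^ 2)‖ ≤ Real.exp √(z1.im ^ 2 + z2.im ^ 2) := by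
  have := ev_growth (f := Complex.cos) (K := 1) (fun z => by simpa using norm_cos_le z) zero_le_one a
    z1 z2
  rw [one_mul] at this
  exact this

lemma sw_growth : ∃ K : ℝ, 0 ≤ K ∧ ∀ z1 z2 : ℂ,
    ‖sw (z1 ^ 2 + z2 ^ 2)‖ ≤ K * Real.exp √(z1.im ^ 2 + z2.im ^ 2) := by
  obtain ⟨K, hK, hb⟩ := snc_bound
  exact ⟨K, hK, ev_growth hb hK a⟩

lemma H_growth : ∃ K : ℝ, 0 ≤ K ∧ ∀ z1 z2 : ℂ,
    ‖H (z1 ^ 2 + z2 ^ 2)‖ ≤ K * Real.exp √(z1.im ^ 2 + z2.im ^ 2) := by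
  obtain ⟨C, hC⟩ := (isCompact_closedBall (0 : ℂ) 1).exists_bound_of_continuousOn
    H_diff.continuous.continuousOn
  refine ⟨max C 1, le_max_of_le_right zero_le_one, fun z1 z2 => ?_⟩
  have he : 1 ≤ Real.exp √(z1.im ^ 2 + z2.im ^ 2) := Real.one_le_exp (Real.sqrt_nonneg _)
  rcases le_total ‖z1 ^ 2 + z2 ^ 2‖ 1 with h | h
  · have h1 := hC (z1 ^ 2 + z2 ^ 2) (by simpa using h)
    have h2 : C ≤ max C 1 := le_max_left _ _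
    have h3 : (0:ℝ) ≤ max C 1 := le_max_of_le_right zero_le_one
    nlinarith
  · have hne : z1 ^ 2 + z2 ^ 2 ≠ 0 := by
      intro h0; rw [h0, norm_zero] at h; linarith
    rw [H_ne hne, norm_div]
    have h1 := cw_growth z1 z2
    have h2 : ‖cw (z1 ^ 2 + z2 ^ 2)‖ / ‖z1 ^ 2 + z2 ^ 2‖ ≤ ‖cw (z1 ^ 2 + z2 ^ 2)‖ :=
      div_le_self (norm_nonneg _) h
    have h3 : (1:ℝ) ≤ max C 1 := le_max_right _ _
    nlinarith

/-- the extremal function -/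
noncomputable def Fs (z : ℂ × ℂ) : ℂ := -(2 * z.1 * z.2 * H (z.1 ^ 2 + z.2 ^ 2))

lemma an_comp {G : ℂ → ℂ} (hG : Differentiable ℂ G) :
    AnalyticOnNhd ℂ (fun z : ℂ × ℂ => G (z.1 ^ 2 + z.2 ^ 2)) univ := by
  intro z _
  have h1 : AnalyticAt ℂ G (z.1 ^ 2 + z.2 ^ 2) := hG.analyticAt _
  have h2 : AnalyticAt ℂ (fun z : ℂ × ℂ => z.1 ^ 2 + z.2 ^ 2) z :=
    (analyticAt_fst.pow 2).add (analyticAt_snd.pow 2)
  exact AnalyticAt.fun_comp (f := fun z : ℂ × ℂ => z.1 ^ 2 + z.2 ^ 2) h1 h2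

lemma Fs_an : AnalyticOnNhd ℂ Fs univ := by
  intro z hz
  have h1 := an_comp H_diff z hz
  exact (((analyticAt_const.mul analyticAt_fst).mul analyticAt_snd).mul h1).neg

lemma hasDerivAt_mul_zero {g : ℂ → ℂ} (hg : DifferentiableAt ℂ g 0) :
    HasDerivAt (fun y : ℂ => y * g y) (g 0) 0 := by
  have h2 := (hasDerivAt_id' (0 : ℂ)).mul hg.hasDerivAt
  rw [one_mul, zero_mul, add_zero] at h2
  exact h2

lemma sq_le_exp {ε : ℝ} (hε : 0 < ε) {t : ℝ} (ht : 0 ≤ t) : t ^ 2 ≤ 2 / ε ^ 2 * Real.exp (ε * t) := by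
  have h := Real.quadratic_le_exp_of_nonneg (mul_nonneg hε.le ht)
  have h2 : (ε * t) ^ 2 / 2 ≤ Real.exp (ε * t) := by nlinarith [mul_nonneg hε.le ht]
  rw [div_mul_eq_mul_div, le_div_iff₀ (by positivity)]
  nlinarith

lemma Fs_spec : SpecDisc Fs := by
  refine ⟨Fs_an, fun ε hε => ?_⟩
  obtain ⟨K, hK, hb⟩ := H_growth
  refine ⟨2 * (2 / ε ^ 2) * K, fun z => ?_⟩
  unfold Fs
  rw [norm_neg, norm_mul, norm_mul, norm_mul]
  have h1 : ‖z.1‖ ≤ ‖z‖ := norm_fst_le z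
  have h2 : ‖z.2‖ ≤ ‖z‖ := norm_snd_le z
  have h3 := sq_le_exp hε (norm_nonneg z)
  have h4 := hb z.1 z.2
  have h5 : ‖(2:ℂ)‖ = 2 := by norm_num
  rw [h5, Real.exp_add]
  calc 2 * ‖z.1‖ * ‖z.2‖ * ‖H (z.1 ^ 2 + z.2 ^ 2)‖
      ≤ 2 * ‖z‖ * ‖z‖ * (K * Real.exp √(z.1.im ^ 2 + z.2.im ^ 2)) := by gcongr
    _ = 2 * ‖z‖ ^ 2 * (K * Real.exp √(z.1.im ^ 2 + z.2.im ^ 2)) := by ring
    _ ≤ 2 * (2 / ε ^ 2 * Real.exp (ε * ‖z‖)) * (K * Real.exp √(z.1.im ^ 2 + z.2.im ^ 2)) := by gcongr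
    _ = _ := by ring

/-- `f_*(x) = -(2 x₁ x₂ / |x|²) cos √(|x|² + π²/4)` -/
noncomputable def fs (p : ℝ × ℝ) : ℂ :=
  ((-(2 * p.1 * p.2 / (p.1 ^ 2 + p.2 ^ 2) * Real.cos √(p.1 ^ 2 + p.2 ^ 2 + a ^ 2)) : ℝ) : ℂ)

lemma cw_real {r : ℝ} (hr : 0 ≤ r) : cw (r : ℂ) = ((Real.cos √(r + a ^ 2) : ℝ) : ℂ) := by
  rw [cw_eq (s := ((√(r + a ^ 2) : ℝ) : ℂ)), Complex.ofReal_cos]
  rw [← Complex.ofReal_pow, Real.sq_sqrt (by positivity)]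
  push_cast
  ring

lemma fs_eq (x y : ℝ) : fs (x, y) = Fs ((x : ℂ), (y : ℂ)) := by
  unfold fs Fs
  dsimp only
  rcases eq_or_ne (x ^ 2 + y ^ 2) 0 with h | h
  · have hx : x = 0 := by nlinarith [sq_nonneg x, sq_nonneg y]
    subst hx
    simp
  · have hc : (x : ℂ) ^ 2 + (y : ℂ) ^ 2 ≠ 0 := by exact_mod_cast h
    rw [H_ne hc]
    have e : (x : ℂ) ^ 2 + (y : ℂ) ^ 2 = ((x ^ 2 + y ^ 2 : ℝ) : ℂ) := by push_cast; ring
    rw [e, cw_real (by positivity), ← e]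
    push_cast
    field_simp

lemma fs_le (p : ℝ × ℝ) : ‖fs p‖ ≤ 1 := by
  unfold fs
  rw [Complex.norm_real, Real.norm_eq_abs, abs_neg, abs_mul]
  have h1 := Real.abs_cos_le_one √(p.1 ^ 2 + p.2 ^ 2 + a ^ 2)
  have h2 : |2 * p.1 * p.2 / (p.1 ^ 2 + p.2 ^ 2)| ≤ 1 := by
    rw [abs_div, abs_of_nonneg (by positivity : 0 ≤ p.1 ^ 2 + p.2 ^ 2)]
    apply div_le_one_of_le₀ _ (by positivity)
    rw [abs_le]
    constructor <;> nlinarith [sq_nonneg (p.1 + p.2), sq_nonneg (p.1 - p.2)]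
  calc |2 * p.1 * p.2 / (p.1 ^ 2 + p.2 ^ 2)| * |Real.cos √(p.1 ^ 2 + p.2 ^ 2 + a ^ 2)|
      ≤ 1 * 1 := by gcongr
    _ = 1 := one_mul 1

lemma fs_mem : fs ∈ B := ⟨⟨1, fs_le⟩, Fs, Fs_spec, fs_eq⟩

lemma T_fs : T fs 0 = ((2 / Real.pi : ℝ) : ℂ) := by
  unfold T
  have h1 : ∀ x : ℝ, deriv (fun y : ℝ => fs (x, y)) 0 = -(2 * (x : ℂ) * H ((x : ℂ) ^ 2)) := by
    intro x
    have e : (fun y : ℝ => fs (x, y))
        = fun y : ℝ => (fun y : ℂ => y * (-(2 * (x : ℂ) * H ((x : ℂ) ^ 2 + y ^ 2)))) (y : ℂ) := by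
      funext y
      rw [fs_eq]
      simp only [Fs]
      ring
    rw [e]
    have hg : Differentiable ℂ (fun y : ℂ => -(2 * (x : ℂ) * H ((x : ℂ) ^ 2 + y ^ 2))) := by
      have : Differentiable ℂ (fun y : ℂ => H ((x : ℂ) ^ 2 + y ^ 2)) := H_diff.comp (by fun_prop)
      fun_prop
    have h2 := hasDerivAt_mul_zero (hg 0)
    have h3 : HasDerivAt (fun y : ℂ => y * (-(2 * (x : ℂ) * H ((x : ℂ) ^ 2 + y ^ 2))))
        (-(2 * (x : ℂ) * H ((x : ℂ) ^ 2))) ((0 : ℝ) : ℂ) := by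
      rw [Complex.ofReal_zero]
      have e0 : (-(2 * (x : ℂ) * H ((x : ℂ) ^ 2))) = -(2 * (x : ℂ) * H ((x : ℂ) ^ 2 + 0 ^ 2)) := by
        norm_num
      rw [e0]
      exact h2
    exact h3.comp_ofReal.deriv
  simp only [Prod.fst_zero, Prod.snd_zero]
  simp_rw [h1]
  have hg : Differentiable ℂ (fun y : ℂ => -(2 * H (y ^ 2))) := by
    have : Differentiable ℂ (fun y : ℂ => H (y ^ 2)) := H_diff.comp (by fun_prop)
    fun_prop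
  have h2 := hasDerivAt_mul_zero (hg 0)
  have e0 : -(2 * H ((0 : ℂ) ^ 2)) = ((2 / Real.pi : ℝ) : ℂ) := by
    rw [zero_pow two_ne_zero, H_zero]
    unfold a
    have hpi : (Real.pi : ℂ) ≠ 0 := by exact_mod_cast Real.pi_ne_zero
    push_cast
    field_simp
  have e1 : (fun y : ℂ => y * (-(2 * H (y ^ 2)))) = fun y : ℂ => -(2 * y * H (y ^ 2)) := by
    funext y; ring
  rw [e0, e1] at h2
  have h3 : HasDerivAt (fun y : ℂ => -(2 * y * H (y ^ 2))) ((2 / Real.pi : ℝ) : ℂ) ((0 : ℝ) : ℂ) := by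
    rw [Complex.ofReal_zero]
    exact h2
  exact h3.comp_ofReal.deriv

/-- Q1: the norm of `T` is `2 / π`, and it is attained -/
theorem norm_T : (∀ f ∈ B, ∀ M : ℝ, (∀ p, ‖f p‖ ≤ M) → ∀ p, ‖T f p‖ ≤ 2 / Real.pi * M) ∧
    fs ∈ B ∧ (∀ p, ‖fs p‖ ≤ 1) ∧ T fs 0 = ((2 / Real.pi : ℝ) : ℂ) :=
  ⟨fun _ hf _ hM p => upper hf hM p, fs_mem, fs_le, T_fs⟩

end Pool.Agent.K7.H38.MD
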