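import Pool.Agent.Helper797.BsFinal

set_option autoImplicit false

open Complex Filter Topology Metric Set
open scoped ContDiff
open Pool.Agent.Helper797.Bs

namespace Pool.Agent.K7.H38.MD

/-- entire functions on `ℂ²` of exponential type with spectrum in the closed unit disc -/
def SpecDisc (F : ℂ × ℂ → ℂ) : Prop :=
  AnalyticOnNhd ℂ F univ ∧
    ∀ ε > 0, ∃ C : ℝ, ∀ z : ℂ × ℂ, ‖F z‖ ≤ C * Real.exp (√(z.1.im ^ 2 + z.2.im ^ 2) + ε * ‖z‖)

/-- the space `B(K₂)` -/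
def B : Set (ℝ × ℝ → ℂ) :=
  {f | (∃ M : ℝ, ∀ p, ‖f p‖ ≤ M) ∧
    ∃ F : ℂ × ℂ → ℂ, SpecDisc F ∧ ∀ x y : ℝ, f (x, y) = F ((x : ℂ), (y : ℂ))}

/-- the operator `T = ∂² / ∂x₁ ∂x₂` -/
noncomputable def T (f : ℝ × ℝ → ℂ) (p : ℝ × ℝ) : ℂ :=
  deriv (fun x : ℝ => deriv (fun y : ℝ => f (x, y)) p.2) p.1

/-- restriction to a line -/
def line (F : ℂ × ℂ → ℂ) (p v : ℂ × ℂ) (z : ℂ) : ℂ := F (p + z • v)

/-- second derivative as a bilinear form -/
noncomputable def D2 (F : ℂ × ℂ → ℂ) (p v w : ℂ × ℂ) : ℂ := fderiv ℂ (fderiv ℂ F) p v w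

variable {F : ℂ × ℂ → ℂ}

lemma diff (hF : AnalyticOnNhd ℂ F univ) : Differentiable ℂ F :=
  fun z => (hF z (mem_univ z)).differentiableAt

lemma diff' (hF : AnalyticOnNhd ℂ F univ) : Differentiable ℂ (fderiv ℂ F) :=
  fun z => ((hF.fderiv) z (mem_univ z)).differentiableAt

lemma D2_symm (hF : AnalyticOnNhd ℂ F univ) (p v w : ℂ × ℂ) : D2 F p v w = D2 F p w v := by
  have h : ContDiffAt ℂ ω F p := (hF p (mem_univ p)).contDiffAt
  exact (h.isSymmSndFDerivAt_of_omega).eq v w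

lemma line_hasDeriv (hF : AnalyticOnNhd ℂ F univ) (p v : ℂ × ℂ) (z : ℂ) :
    HasDerivAt (line F p v) (fderiv ℂ F (p + z • v) v) z := by
  have h1 : HasDerivAt (fun z : ℂ => p + z • v) v z := by
    have := ((hasDerivAt_id z).smul_const v).const_add p
    simpa using this
  have h2 := (diff hF (p + z • v)).hasFDerivAt.comp_hasDerivAt z h1
  exact h2

lemma line_hasDeriv2 (hF : AnalyticOnNhd ℂ F univ) (p v w : ℂ × ℂ) (z : ℂ) :
    HasDerivAt (fun z : ℂ => fderiv ℂ F (p + z • v) w) (D2 F (p + z • v) v w) z := by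
  have h1 : HasDerivAt (fun z : ℂ => p + z • v) v z := by
    have := ((hasDerivAt_id z).smul_const v).const_add p
    simpa using this
  have h2 := (diff' hF (p + z • v)).hasFDerivAt.comp_hasDerivAt z h1
  have h3 := h2.clm_apply (hasDerivAt_const z w)
  simpa [D2] using h3

lemma line_deriv2 (hF : AnalyticOnNhd ℂ F univ) (p v : ℂ × ℂ) (z : ℂ) :
    deriv (deriv (line F p v)) z = D2 F (p + z • v) v v := by
  have h : deriv (line F p v) = fun z => fderiv ℂ F (p + z • v) v :=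
    funext fun z => (line_hasDeriv hF p v z).deriv
  rw [h]
  exact (line_hasDeriv2 hF p v v z).deriv

lemma T_eq (hF : AnalyticOnNhd ℂ F univ) {f : ℝ × ℝ → ℂ}
    (hf : ∀ x y : ℝ, f (x, y) = F ((x : ℂ), (y : ℂ))) (p : ℝ × ℝ) :
    T f p = D2 F ((p.1 : ℂ), (p.2 : ℂ)) (1, 0) (0, 1) := by
  unfold T
  have h1 : ∀ x : ℝ, deriv (fun y : ℝ => f (x, y)) p.2
      = fderiv ℂ F (((x : ℂ)), (p.2 : ℂ)) (0, 1) := by
    intro x
    have h := (line_hasDeriv hF ((x : ℂ), 0) (0, 1) (p.2 : ℂ)).comp_ofReal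
    have e : (fun y : ℝ => line F ((x : ℂ), 0) (0, 1) (y : ℂ)) = fun y : ℝ => f (x, y) := by
      funext y
      rw [hf]
      simp [line]
    rw [e] at h
    rw [h.deriv]
    simp
  simp_rw [h1]
  have h := (line_hasDeriv2 hF (0, (p.2 : ℂ)) (1, 0) (0, 1) (p.1 : ℂ)).comp_ofReal
  have e : (fun x : ℝ => fderiv ℂ F ((0, (p.2 : ℂ)) + (x : ℂ) • (1, 0)) (0, 1))
      = fun x : ℝ => fderiv ℂ F ((x : ℂ), (p.2 : ℂ)) (0, 1) := by
    funext x
    simp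
  rw [e] at h
  rw [h.deriv]
  simp

lemma D2_add_left (p v v' w : ℂ × ℂ) : D2 F p (v + v') w = D2 F p v w + D2 F p v' w := by
  simp [D2]

lemma D2_add_right (p v w w' : ℂ × ℂ) : D2 F p v (w + w') = D2 F p v w + D2 F p v w' := by
  simp [D2]

lemma D2_smul_left (p v w : ℂ × ℂ) (c : ℂ) : D2 F p (c • v) w = c * D2 F p v w := by
  simp [D2]

lemma D2_smul_right (p v w : ℂ × ℂ) (c : ℂ) : D2 F p v (c • w) = c * D2 F p v w := by
  simp [D2]

/-- `√(1/2)` -/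
noncomputable def hs : ℝ := √(1 / 2)

lemma hs_sq : hs * hs = 1 / 2 := Real.mul_self_sqrt (by norm_num)

lemma hs_pos : 0 < hs := Real.sqrt_pos.2 (by norm_num)

lemma hs_sqC : (hs : ℂ) * (hs : ℂ) = 1 / 2 := by
  rw [← Complex.ofReal_mul, hs_sq]; norm_num

/-- the two diagonal directions -/
noncomputable def vp : ℂ × ℂ := ((hs : ℂ), (hs : ℂ))
noncomputable def vm : ℂ × ℂ := ((hs : ℂ), -(hs : ℂ))

lemma D2_diag (hF : AnalyticOnNhd ℂ F univ) (p : ℂ × ℂ) :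
    D2 F p (1, 0) (0, 1) = (D2 F p vp vp - D2 F p vm vm) / 2 := by
  have e1 : vp = (hs : ℂ) • ((1, 0) : ℂ × ℂ) + (hs : ℂ) • ((0, 1) : ℂ × ℂ) := by
    simp [vp]
  have e2 : vm = (hs : ℂ) • ((1, 0) : ℂ × ℂ) + (-(hs : ℂ)) • ((0, 1) : ℂ × ℂ) := by
    simp [vm]
  rw [e1, e2]
  simp only [D2_add_left, D2_add_right, D2_smul_left, D2_smul_right]
  rw [D2_symm hF p (0, 1) (1, 0)]
  linear_combination (-2) * D2 F p (1, 0) (0, 1) * hs_sqC

/-- growth on lines -/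
lemma line_growth (hF : SpecDisc F) {M : ℝ} (hM : ∀ x y : ℝ, ‖F ((x : ℂ), (y : ℂ))‖ ≤ M)
    (x y v1 v2 : ℝ) (hv : v1 ^ 2 + v2 ^ 2 = 1) (z : ℂ) :
    ‖line F ((x : ℂ), (y : ℂ)) ((v1 : ℂ), (v2 : ℂ)) z‖ ≤ M * Real.exp |z.im| := by
  have hd : Differentiable ℂ (line F ((x : ℂ), (y : ℂ)) ((v1 : ℂ), (v2 : ℂ))) :=
    fun z => (line_hasDeriv hF.1 _ _ z).differentiableAt
  have hv1 : |v1| ≤ 1 := by
    rw [abs_le_one_iff_mul_self_le_one]; nlinarith [sq_nonneg v2]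
  have hv2 : |v2| ≤ 1 := by
    rw [abs_le_one_iff_mul_self_le_one]; nlinarith [sq_nonneg v1]
  have key := pl_bound hd (σ := 1) (M := M) (by norm_num) ?_ ?_ z
  · simpa using key
  · intro ε hε
    obtain ⟨C, hC⟩ := hF.2 ε hε
    refine ⟨C * Real.exp (ε * (|x| + |y|)), fun z => ?_⟩
    have hC0 : 0 ≤ C := by
      have h0 := (norm_nonneg _).trans (hC 0)
      by_contra hneg
      rw [not_le] at hneg
      have : C * Real.exp (√((0 : ℂ × ℂ).1.im ^ 2 + (0 : ℂ × ℂ).2.im ^ 2) + ε * ‖(0 : ℂ × ℂ)‖) < 0 :=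
        mul_neg_of_neg_of_pos hneg (Real.exp_pos _)
      linarith
    refine (hC _).trans ?_
    rw [mul_assoc, ← Real.exp_add]
    apply mul_le_mul_of_nonneg_left _ hC0
    apply Real.exp_le_exp.2
    have e1 : √((((x : ℂ), (y : ℂ)) + z • ((v1 : ℂ), (v2 : ℂ))).1.im ^ 2
        + (((x : ℂ), (y : ℂ)) + z • ((v1 : ℂ), (v2 : ℂ))).2.im ^ 2) = |z.im| := by
      have : (((x : ℂ), (y : ℂ)) + z • ((v1 : ℂ), (v2 : ℂ))).1.im ^ 2
        + (((x : ℂ), (y : ℂ)) + z • ((v1 : ℂ), (v2 : ℂ))).2.im ^ 2 = z.im ^ 2 := by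
        simp
        linear_combination z.im ^ 2 * hv
      rw [this, Real.sqrt_sq_eq_abs]
    rw [e1]
    have e2 : ‖((x : ℂ), (y : ℂ)) + z • ((v1 : ℂ), (v2 : ℂ))‖ ≤ (|x| + |y|) + ‖z‖ := by
      refine (norm_add_le _ _).trans ?_
      gcongr
      · rw [Prod.norm_def]
        simp only [Complex.norm_real, Real.norm_eq_abs]
        exact max_le (by linarith [abs_nonneg y]) (by linarith [abs_nonneg x])
      · rw [norm_smul, Prod.norm_def]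
        simp only [Complex.norm_real, Real.norm_eq_abs]
        calc ‖z‖ * max |v1| |v2| ≤ ‖z‖ * 1 := by gcongr; exact max_le hv1 hv2
          _ = ‖z‖ := mul_one _
    have e3 : |z.im| ≤ ‖z‖ := Complex.abs_im_le_norm z
    nlinarith
  · intro t
    have := hM (x + t * v1) (y + t * v2)
    simpa [line] using this

lemma kap_half : kap (Real.pi / 2) = 4 / Real.pi ^ 2 := by
  unfold kap
  rw [Real.cos_pi_div_two, Real.sin_pi_div_two]
  field_simp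
  norm_num

lemma rho_half : rho (Real.pi / 2) = 2 / Real.pi := by
  unfold rho
  rw [Real.cos_pi_div_two, Real.sin_pi_div_two]
  field_simp
  norm_num

/-- the value of the one-dimensional functional on a line -/
noncomputable def U (G : ℂ → ℂ) : ℂ := deriv (deriv G) 0 + ((4 / Real.pi ^ 2 : ℝ) : ℂ) * G 0

lemma U_le {G : ℂ → ℂ} (hG : Differentiable ℂ G) {M : ℝ} (hM : 0 ≤ M)
    (hb : ∀ z, ‖G z‖ ≤ M * Real.exp |z.im|) : ‖U G‖ ≤ 2 / Real.pi * M := by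
  have h := U0 hG hM hb (a := Real.pi / 2) (by positivity) (by linarith [Real.pi_pos])
  rw [kap_half, rho_half] at h
  exact h

lemma line_diff (hF : AnalyticOnNhd ℂ F univ) (p v : ℂ × ℂ) : Differentiable ℂ (line F p v) :=
  fun z => (line_hasDeriv hF _ _ z).differentiableAt

lemma T_lines (hF : AnalyticOnNhd ℂ F univ) {f : ℝ × ℝ → ℂ}
    (hf : ∀ x y : ℝ, f (x, y) = F ((x : ℂ), (y : ℂ))) (p : ℝ × ℝ) :
    T f p = (U (line F ((p.1 : ℂ), (p.2 : ℂ)) vp) - U (line F ((p.1 : ℂ), (p.2 : ℂ)) vm)) / 2 := by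
  rw [T_eq hF hf, D2_diag hF]
  unfold U
  rw [line_deriv2 hF, line_deriv2 hF]
  simp [line]

lemma hs_unit_p : hs ^ 2 + hs ^ 2 = 1 := by
  have := hs_sq; nlinarith

lemma hs_unit_m : hs ^ 2 + (-hs) ^ 2 = 1 := by
  have := hs_sq; nlinarith

lemma growth_p (hF : SpecDisc F) {M : ℝ} (hM : ∀ x y : ℝ, ‖F ((x : ℂ), (y : ℂ))‖ ≤ M)
    (x y : ℝ) (z : ℂ) : ‖line F ((x : ℂ), (y : ℂ)) vp z‖ ≤ M * Real.exp |z.im| :=
  line_growth hF hM x y hs hs hs_unit_p z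

lemma growth_m (hF : SpecDisc F) {M : ℝ} (hM : ∀ x y : ℝ, ‖F ((x : ℂ), (y : ℂ))‖ ≤ M)
    (x y : ℝ) (z : ℂ) : ‖line F ((x : ℂ), (y : ℂ)) vm z‖ ≤ M * Real.exp |z.im| := by
  have := line_growth hF hM x y hs (-hs) hs_unit_m z
  simpa [vm] using this

theorem upper {f : ℝ × ℝ → ℂ} (hf : f ∈ B) {M : ℝ} (hM : ∀ p, ‖f p‖ ≤ M) (p : ℝ × ℝ) :
    ‖T f p‖ ≤ 2 / Real.pi * M := by
  obtain ⟨-, F, hF, hfF⟩ := hf
  have hM' : ∀ x y : ℝ, ‖F ((x : ℂ), (y : ℂ))‖ ≤ M := fun x y => by rw [← hfF]; exact hM _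
  have hM0 : 0 ≤ M := (norm_nonneg _).trans (hM p)
  rw [T_lines hF.1 hfF]
  have h1 := U_le (line_diff hF.1 _ _) hM0 (growth_p hF hM' p.1 p.2)
  have h2 := U_le (line_diff hF.1 _ _) hM0 (growth_m hF hM' p.1 p.2)
  rw [norm_div]
  have h3 := norm_sub_le (U (line F ((p.1 : ℂ), (p.2 : ℂ)) vp)) (U (line F ((p.1 : ℂ), (p.2 : ℂ)) vm))
  have : ‖(2 : ℂ)‖ = 2 := by norm_num
  rw [this]
  linarith

end Pool.Agent.K7.H38.MD
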